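import Pool.Agent.Work.MP_80ff4e_al.Interface3

/-!
# FT1: the polynomial `g` with `z₀ + g(y)^q = f(z₀ + y^q)`
-/

set_option autoImplicit false

open Polynomial

namespace PCF

namespace FT

/-- A polynomial all of whose root multiplicities are divisible by `q` is a `q`-th power. -/
theorem exists_pow_eq (Q : ℂ[X]) (hQ : Q ≠ 0) (q : ℕ) (hq : 1 ≤ q)
    (h : ∀ u, Q.eval u = 0 → q ∣ Q.rootMultiplicity u) : ∃ R : ℂ[X], Q = R ^ q := by
  classical
  obtain ⟨c, hc⟩ := IsAlgClosed.exists_pow_nat_eq Q.leadingCoeff (by omega : 0 < q)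
  refine ⟨C c * ∏ a ∈ Q.roots.toFinset, (X - C a) ^ (Q.rootMultiplicity a / q), ?_⟩
  have h1 := (IsAlgClosed.splits Q).eq_prod_roots
  rw [prod_multiset_root_eq_finset_root] at h1
  rw [mul_pow, ← C_pow, hc, ← Finset.prod_pow]
  conv_lhs => rw [h1]
  congr 1
  refine Finset.prod_congr rfl fun a ha => ?_
  rw [← pow_mul]
  congr 1
  rw [Multiset.mem_toFinset, mem_roots hQ] at ha
  exact (Nat.div_mul_cancel (h a ha)).symm

theorem stmt_FT1 : Stmt_FT1 := by
  intro f z₀ hd hfix q hq hcop hdiv
  -- the polynomial `p x = f (z₀ + x) - z₀`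
  set p : ℂ[X] := f.comp (C z₀ + X) - C z₀ with hp
  have hcomp : p.comp (X - C z₀) = f - C z₀ := by
    rw [hp, sub_comp, comp_assoc]
    simp
  have hfne : f - C z₀ ≠ 0 := by
    intro h
    have : f = C z₀ := sub_eq_zero.1 h
    rw [this, natDegree_C] at hd
    omega
  have hpdeg : p.natDegree = f.natDegree := by
    have h1 : (p.comp (X - C z₀)).natDegree = p.natDegree := by
      rw [natDegree_comp, natDegree_X_sub_C, mul_one]
    rw [← h1, hcomp, natDegree_sub_C]
  have hpne : p ≠ 0 := by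
    intro h
    rw [h, natDegree_zero] at hpdeg
    omega
  have hpeval : ∀ x, p.eval x = f.eval (z₀ + x) - z₀ := by
    intro x; simp [hp]
  have hmul : ∀ u, p.rootMultiplicity u = (f - C z₀).rootMultiplicity (z₀ + u) := by
    intro u
    have h2 : p = (f - C z₀).comp (X + C z₀) := by
      rw [hp]; simp [add_comm]
    rw [h2, add_comm z₀ u]
    exact (rootMultiplicity_eq_rootMultiplicity (p := (f - C z₀)) (t := u + z₀)).trans (by
      rw [rootMultiplicity_eq_rootMultiplicity (p := (f - C z₀).comp (X + C z₀)) (t := u)]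
      rw [comp_assoc]
      congr 2
      simp
      ring) |>.symm
  set m := ldeg f z₀ with hm
  have hm0 : p.rootMultiplicity 0 = m := by
    rw [hmul, add_zero, hm, ldeg, hfix]
  obtain ⟨Q, hQ⟩ : X ^ m ∣ p := by
    have := pow_rootMultiplicity_dvd p 0
    rw [hm0] at this
    simpa using this
  have hQne : Q ≠ 0 := by
    intro h; rw [h, mul_zero] at hQ; exact hpne hQ
  have hQ0 : Q.eval 0 ≠ 0 := by
    intro h
    have h3 : (X : ℂ[X]) ^ (m + 1) ∣ p := by
      have : (X : ℂ[X]) ∣ Q := by
        have := dvd_iff_isRoot.2 (show IsRoot Q 0 from h)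
        simpa using this
      obtain ⟨Q', hQ'⟩ := this
      exact ⟨Q', by rw [hQ, hQ']; ring⟩
    have h4 : m + 1 ≤ p.rootMultiplicity 0 := by
      rw [le_rootMultiplicity_iff hpne]
      simpa using h3
    omega
  have hQmul : ∀ u, Q.eval u = 0 → q ∣ Q.rootMultiplicity u := by
    intro u hu
    have hune : u ≠ 0 := by rintro rfl; exact hQ0 hu
    have h5 : p.rootMultiplicity u = Q.rootMultiplicity u := by
      rw [hQ, rootMultiplicity_mul (by rw [← hQ]; exact hpne)]
      have : rootMultiplicity u (X ^ m : ℂ[X]) = 0 := by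
        rw [rootMultiplicity_eq_zero]
        simp [IsRoot, hune]
      omega
    have hpu : p.eval u = 0 := by rw [hQ, eval_mul, hu, mul_zero]
    have hfu : f.eval (z₀ + u) = z₀ := by
      have := hpeval u
      rw [hpu] at this
      exact (sub_eq_zero.1 this.symm)
    have h6 := hdiv (z₀ + u) hfu (by simpa using hune)
    rw [ldeg, hfu] at h6
    rw [← h5, hmul]
    exact h6
  obtain ⟨R, hR⟩ := exists_pow_eq Q hQne q hq hQmul
  refine ⟨X ^ m * R.comp (X ^ q), ?_, ?_, ?_⟩
  · have h7 : (X ^ m * R.comp (X ^ q)) ^ q = p.comp (X ^ q) := by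
      rw [hQ, hR]
      simp [mul_pow, ← pow_mul, mul_comm]
    have h8 := congrArg natDegree h7
    rw [natDegree_pow, natDegree_comp, natDegree_X_pow, hpdeg, mul_comm] at h8
    exact Nat.eq_of_mul_eq_mul_right (by omega) h8
  · have hm1 : m ≠ 0 := by
      intro h
      rw [h] at hm0
      rw [rootMultiplicity_eq_zero_iff] at hm0
      exact hpne (hm0 (by simp [IsRoot, hpeval, hfix]))
    simp [hm1]
  · intro y
    have h9 := hpeval (y ^ q)
    rw [hQ, hR] at h9
    have h10 : f.eval (z₀ + y ^ q) = z₀ + eval (y ^ q) (X ^ m * R ^ q) := by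
      rw [h9]; ring
    rw [h10]
    simp only [eval_mul, eval_pow, eval_X, eval_comp, mul_pow]
    ring

end FT

end PCF
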