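import Pool.Agent.Work.MP_80ff4e_al_helper10.FT1

/-!
# FT2: post-critical sets and local degrees
-/

set_option autoImplicit false

open Polynomial

namespace PCF

namespace FT

theorem pow_eq_pow_poly (a b : ℂ[X]) (q : ℕ) (hq : 1 ≤ q) (h : a ^ q = b ^ q) :
    ∃ η : ℂ, η ^ q = 1 ∧ a = C η * b := by
  classical
  have hprim : IsPrimitiveRoot (C (Complex.exp (2 * Real.pi * Complex.I / q)) : ℂ[X]) q :=
    (Complex.isPrimitiveRoot_exp q (by omega)).map_of_injective (f := (C : ℂ →+* ℂ[X]))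
      C_injective
  have h1 := hprim.pow_sub_pow_eq_prod_sub_mul a b (by omega : 0 < q)
  rw [h, sub_self] at h1
  obtain ⟨ω, hω, hω2⟩ := Finset.prod_eq_zero_iff.1 h1.symm
  rw [mem_nthRootsFinset (by omega : 0 < q)] at hω
  have h2 : ω.natDegree = 0 := by
    have := congrArg natDegree hω
    rw [natDegree_pow, natDegree_one] at this
    rcases Nat.mul_eq_zero.1 this with h | h
    · omega
    · exact h
  obtain ⟨η, rfl⟩ := natDegree_eq_zero.1 h2
  refine ⟨η, ?_, sub_eq_zero.1 hω2⟩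
  have : C (η ^ q) = C (1 : ℂ) := by rw [C_pow, hω, C_1]
  exact C_injective this

theorem it_zero (f : ℂ[X]) (z : ℂ) : it f 0 z = z := rfl

theorem it_succ (f : ℂ[X]) (n : ℕ) (z : ℂ) : it f (n + 1) z = it f n (f.eval z) :=
  Function.iterate_succ_apply _ _ _

theorem it_succ' (f : ℂ[X]) (n : ℕ) (z : ℂ) : it f (n + 1) z = f.eval (it f n z) :=
  Function.iterate_succ_apply' _ _ _

theorem it_add (f : ℂ[X]) (m n : ℕ) (z : ℂ) : it f (m + n) z = it f m (it f n z) :=
  Function.iterate_add_apply _ _ _ _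

section

variable {f g : ℂ[X]} {z₀ : ℂ} {q : ℕ} (hc : Cover f g z₀ q)

include hc

theorem it_semi (n : ℕ) (y : ℂ) : it f n (z₀ + y ^ q) = z₀ + (it g n y) ^ q := by
  induction n generalizing y with
  | zero => rfl
  | succ n ih => rw [it_succ, it_succ, ← ih, hc.semi]

theorem it_zero_eq (n : ℕ) : it g n 0 = 0 := by
  induction n with
  | zero => rfl
  | succ n ih => rw [it_succ, hc.gfix, ih]

theorem ne_zero_of_it {n : ℕ} {y : ℂ} (h : it g n y ≠ 0) : y ≠ 0 := by
  rintro rfl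
  exact h (it_zero_eq hc n)

theorem two_le_g : 2 ≤ g.natDegree := hc.nat ▸ hc.two_le

theorem semi_poly : (C z₀ + X ^ q : ℂ[X]).comp g = f.comp (C z₀ + X ^ q) := by
  apply Polynomial.funext
  intro y
  simp [hc.semi]

theorem der (y : ℂ) : (g.eval y) ^ (q - 1) * g.derivative.eval y =
    y ^ (q - 1) * f.derivative.eval (z₀ + y ^ q) := by
  have h1 := congrArg derivative (semi_poly hc)
  rw [derivative_comp, derivative_comp] at h1
  have h2 := congrArg (eval y) h1
  simp only [derivative_add, derivative_C, derivative_X_pow, eval_mul, eval_comp, eval_add,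
    eval_C, eval_pow, eval_X, map_natCast, eval_natCast, zero_add] at h2
  have hq : (q : ℂ) ≠ 0 := by
    have := hc.qpos
    exact_mod_cast (by omega : q ≠ 0)
  apply mul_left_cancel₀ hq
  linear_combination h2

theorem itp_semi (hL : Stmt_L) (n : ℕ) :
    (C z₀ + X ^ q : ℂ[X]).comp (itp g n) = (itp f n).comp (C z₀ + X ^ q) := by
  apply Polynomial.funext
  intro y
  have h1 := hL.1 f n (z₀ + y ^ q)
  have h2 := hL.1 g n y
  simp [h1, h2, it_semi hc]

end

theorem natDegree_pi (z₀ : ℂ) (q : ℕ) : (C z₀ + X ^ q : ℂ[X]).natDegree = q := by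
  rw [add_comm]
  by_cases h : q = 0
  · subst h
    rw [pow_zero, ← C_1, ← C_add, natDegree_C]
  · exact natDegree_X_pow_add_C

/-- `g (ζ y) = ζ ^ m g y`. -/
theorem g_zeta {f g : ℂ[X]} {z₀ : ℂ} {q : ℕ} (hc : Cover f g z₀ q) (ζ : ℂ)
    (hζ : ζ ^ q = 1) (y : ℂ) : g.eval (ζ * y) = ζ ^ (ldeg g 0) * g.eval y := by
  have h1 : (g.comp (C ζ * X)) ^ q = g ^ q := by
    apply Polynomial.funext
    intro y
    have h2 := hc.semi (ζ * y)
    have h3 := hc.semi y
    rw [mul_pow, hζ, one_mul, ← h3] at h2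
    simpa using h2
  obtain ⟨η, hη, hη2⟩ := pow_eq_pow_poly _ _ q hc.qpos h1
  -- compare the lowest coefficients
  set m := ldeg g 0 with hm
  have hg0 : g ≠ 0 := by
    intro h
    have := two_le_g hc
    rw [h, natDegree_zero] at this
    omega
  have hm0 : g.rootMultiplicity 0 = m := by
    rw [hm, ldeg, hc.gfix, C_0, sub_zero]
  have hne : g.coeff m ≠ 0 := by
    intro h
    have hd : (X : ℂ[X]) ^ m ∣ g := by
      have := pow_rootMultiplicity_dvd g 0
      rw [hm0] at this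
      simpa using this
    have hd2 : (X : ℂ[X]) ^ (m + 1) ∣ g := by
      rw [X_pow_dvd_iff] at hd ⊢
      intro d hd3
      rcases Nat.lt_succ_iff_lt_or_eq.1 hd3 with h4 | h4
      · exact hd d h4
      · rw [h4]; exact h
    have h4 : m + 1 ≤ g.rootMultiplicity 0 := by
      rw [le_rootMultiplicity_iff hg0]
      simpa using hd2
    omega
  have h5 : ζ ^ m * g.coeff m = η * g.coeff m := by
    have := congrArg (fun p => coeff p m) hη2
    simp only [coeff_C_mul] at this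
    rw [comp_C_mul_X_coeff] at this
    rw [mul_comm, this]
  have h6 : ζ ^ m = η := mul_right_cancel₀ hne h5
  have h7 := congrArg (eval y) hη2
  rw [h6]
  simpa using h7

theorem it_zeta {f g : ℂ[X]} {z₀ : ℂ} {q : ℕ} (hc : Cover f g z₀ q) (ζ : ℂ)
    (hζ : ζ ^ q = 1) (n : ℕ) (y : ℂ) :
    it g n (ζ * y) = ζ ^ ((ldeg g 0) ^ n) * it g n y := by
  induction n with
  | zero => simp [it_zero]
  | succ n ih =>
    rw [it_succ', it_succ', ih, g_zeta hc _ (by rw [← pow_mul, mul_comm, pow_mul, hζ, one_pow])]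
    rw [← pow_mul, pow_succ]

theorem ldeg_pi_zero (z₀ : ℂ) (q : ℕ) : ldeg (C z₀ + X ^ q) 0 = q := by
  rcases Nat.eq_zero_or_pos q with h | h
  · subst h
    simp [ldeg]
  · rw [ldeg]
    have h1 : (C z₀ + X ^ q - C (eval 0 (C z₀ + X ^ q)) : ℂ[X]) = (X - C 0) ^ q := by
      simp [h.ne']
    rw [h1, rootMultiplicity_X_sub_C_pow]

theorem ldeg_pi_ne (hL : Stmt_L) (z₀ : ℂ) (q : ℕ) (hq : 1 ≤ q) (y : ℂ) (hy : y ≠ 0) :
    ldeg (C z₀ + X ^ q) y = 1 := by
  have hd : 1 ≤ (C z₀ + X ^ q : ℂ[X]).natDegree := by rw [natDegree_pi]; exact hq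
  have h1 := hL.2.2.2.2.2.1 _ hd y
  have h2 := hL.2.2.2.2.2.2.1 _ hd y
  have h3 : ¬ 2 ≤ ldeg (C z₀ + X ^ q) y := by
    rw [h2]
    have hq0 : (q : ℂ) ≠ 0 := by exact_mod_cast (by omega : q ≠ 0)
    simp [hq0, hy, derivative_X_pow]
  omega

theorem root_adjust (m q : ℕ) (hq : 1 ≤ q) (h : Nat.Coprime m q) (ω : ℂ) (hω : ω ^ q = 1) :
    ∃ ζ : ℂ, ζ ^ q = 1 ∧ ζ ^ m = ω := by
  obtain ⟨a, b, hab⟩ := (Nat.isCoprime_iff_coprime.2 h)
  have hω0 : ω ≠ 0 := by
    rintro rfl
    rw [zero_pow (by omega)] at hω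
    exact zero_ne_one hω
  refine ⟨ω ^ a, ?_, ?_⟩
  · rw [← zpow_natCast, ← zpow_mul, mul_comm, zpow_mul, zpow_natCast, hω, one_zpow]
  · rw [← zpow_natCast, ← zpow_mul]
    have h1 : a * (m : ℤ) = 1 + (q : ℤ) * (-b) := by linear_combination hab
    rw [h1, zpow_add₀ hω0, zpow_mul, zpow_natCast, hω, one_zpow, zpow_one, mul_one]

theorem cop_g {f g : ℂ[X]} {z₀ : ℂ} {q : ℕ} (hc : Cover f g z₀ q) (hL : Stmt_L) :
    ldeg g 0 = ldeg f z₀ := by
  have hq := hc.qpos
  have hpi : 1 ≤ (C z₀ + X ^ q : ℂ[X]).natDegree := by rw [natDegree_pi]; exact hq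
  have hf : 1 ≤ f.natDegree := by have := hc.two_le; omega
  have hg : 1 ≤ g.natDegree := by have := two_le_g hc; omega
  have hcomp := hL.2.2.2.2.2.2.2.1
  have h1 := hcomp _ _ hpi hg 0
  have h2 := hcomp _ _ hf hpi 0
  rw [semi_poly hc, h2, hc.gfix, ldeg_pi_zero] at h1
  have h3 : eval 0 (C z₀ + X ^ q : ℂ[X]) = z₀ := by
    simp [show q ≠ 0 by omega]
  rw [h3, mul_comm] at h1
  exact (Nat.eq_of_mul_eq_mul_left (by omega) h1).symm

theorem lift_pt {f g : ℂ[X]} {z₀ : ℂ} {q : ℕ} (hc : Cover f g z₀ q)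
    (hg : Nat.Coprime (ldeg g 0) q) (n : ℕ) (x y : ℂ) (h : it f n x = z₀ + y ^ q) :
    ∃ u, z₀ + u ^ q = x ∧ it g n u = y := by
  have hq := hc.qpos
  induction n generalizing x with
  | zero => exact ⟨y, by rw [← h, it_zero], rfl⟩
  | succ n ih =>
    rw [it_succ] at h
    obtain ⟨u', hu1, hu2⟩ := ih _ h
    obtain ⟨u₀, hu0⟩ := IsAlgClosed.exists_pow_nat_eq (x - z₀) (by omega : 0 < q)
    have h1 : z₀ + (g.eval u₀) ^ q = z₀ + u' ^ q := by
      rw [hc.semi, hu0, hu1]; congr 1; ring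
    have h2 : (g.eval u₀) ^ q = u' ^ q := by linear_combination h1
    by_cases h3 : u' = 0
    · refine ⟨u₀, by rw [hu0]; ring, ?_⟩
      rw [it_succ]
      have h4 : g.eval u₀ = 0 := by
        rw [h3, zero_pow (by omega)] at h2
        exact pow_eq_zero_iff (by omega) |>.1 h2
      rw [h4, ← h3, hu2]
    · have hg0 : g.eval u₀ ≠ 0 := by
        intro h4
        rw [h4, zero_pow (by omega)] at h2
        exact h3 ((pow_eq_zero_iff (by omega)).1 h2.symm)
      set ω := u' / g.eval u₀ with hω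
      have hω1 : ω ^ q = 1 := by
        rw [hω, div_pow, h2, div_self (pow_ne_zero _ h3)]
      obtain ⟨ζ, hζ1, hζ2⟩ := root_adjust _ q hq hg ω hω1
      refine ⟨ζ * u₀, by rw [mul_pow, hζ1, hu0]; ring, ?_⟩
      rw [it_succ, g_zeta hc ζ hζ1, hζ2, hω, div_mul_cancel₀ _ hg0, hu2]

theorem stmt_FT2 (hL : Stmt_L) : Stmt_FT2 := by
  intro f g z₀ q hc
  have hq := hc.qpos
  have hq0 : (q : ℂ) ≠ 0 := by exact_mod_cast (by omega : q ≠ 0)
  have hpi : 1 ≤ (C z₀ + X ^ q : ℂ[X]).natDegree := by rw [natDegree_pi]; exact hq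
  have hf : 1 ≤ f.natDegree := by have := hc.two_le; omega
  have hg : 1 ≤ g.natDegree := by have := two_le_g hc; omega
  have hcomp := hL.2.2.2.2.2.2.2.1
  have hg0 := cop_g hc hL
  have hcop : Nat.Coprime (ldeg g 0) q := hg0 ▸ hc.cop
  have hitg : ∀ n, 1 ≤ (itp g n).natDegree := fun n => by
    rw [hL.2.1]; exact Nat.one_le_pow _ _ (by omega)
  have hitf : ∀ n, 1 ≤ (itp f n).natDegree := fun n => by
    rw [hL.2.1]; exact Nat.one_le_pow _ _ (by omega)
  have ha : ∀ y ∈ postCrit g, y = 0 ∨ z₀ + y ^ q ∈ postCrit f := by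
    rintro y ⟨c, hc1, n, hn, rfl⟩
    by_cases hc0 : c = 0
    · left; rw [hc0, it_zero_eq hc]
    · right
      refine ⟨z₀ + c ^ q, ?_, n, hn, it_semi hc n c⟩
      have h1 := der hc c
      rw [hc1, mul_zero] at h1
      exact (mul_eq_zero.1 h1.symm).resolve_left (pow_ne_zero _ hc0)
  have hlift := fun n x y => lift_pt hc hcop n x y
  refine ⟨ha, ?_, ?_, ?_, fun n y h => ne_zero_of_it hc h, hg0, ?_, hlift⟩
  · rintro y hy ⟨c, hc1, n, hn, hn2⟩
    obtain ⟨u, hu1, hu2⟩ := hlift n c y hn2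
    refine ⟨u, ?_, n, hn, hu2⟩
    have h1 := der hc u
    rw [hu1, hc1, mul_zero] at h1
    rcases mul_eq_zero.1 h1 with h2 | h2
    · exfalso
      have h3 : g.eval u = 0 := by
        by_contra h4
        exact pow_ne_zero _ h4 h2
      apply hy
      obtain ⟨n, rfl⟩ := Nat.exists_eq_add_of_le' hn
      rw [← hu2, it_succ, h3, it_zero_eq hc]
    · exact h2
  · intro hfin
    have h1 : postCrit g ⊆ {0} ∪ (fun y : ℂ => z₀ + y ^ q) ⁻¹' (postCrit f) := by
      intro y hy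
      rcases ha y hy with h | h
      · left; exact h
      · right; exact h
    refine Set.Finite.subset (Set.Finite.union (Set.finite_singleton 0) ?_) h1
    refine Set.Finite.preimage' hfin fun b _ => ?_
    have h2 : ((fun y : ℂ => z₀ + y ^ q) ⁻¹' {b}) ⊆ ((C z₀ + X ^ q - C b : ℂ[X]).roots.toFinset : Set ℂ) := by
      intro y hy
      have hne : (C z₀ + X ^ q - C b : ℂ[X]) ≠ 0 := by
        intro h
        have : (C z₀ + X ^ q - C b : ℂ[X]).natDegree = q := by rw [natDegree_sub_C, natDegree_pi]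
        rw [h, natDegree_zero] at this
        omega
      simp only [Set.mem_preimage, Set.mem_singleton_iff] at hy
      simp only [Finset.mem_coe, Multiset.mem_toFinset]
      rw [mem_roots hne]
      simp [IsRoot, hy]
    exact Set.Finite.subset (Finset.finite_toSet _) h2
  · intro n y hy hy2
    have h1 := hcomp _ _ hpi (hitg n) y
    have h2 := hcomp _ _ (hitf n) hpi y
    rw [itp_semi hc hL, h2, ldeg_pi_ne hL _ _ hq _ hy, hL.1, ldeg_pi_ne hL _ _ hq _ hy2] at h1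
    simpa using h1.symm
  · intro u hu hu0
    have h1 := hcomp _ _ hpi hg u
    have h2 := hcomp _ _ hf hpi u
    rw [semi_poly hc, h2, ldeg_pi_ne hL _ _ hq _ hu0, hu, ldeg_pi_zero] at h1
    simpa using h1.symm

end FT

end PCF
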