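import Pool.Agent.Work.MP_80ff4e_al_helper10.Acts

/-!
# FT3: transfer of the branch property
-/

set_option autoImplicit false

open Polynomial unitInterval

namespace PCF

namespace FT

/-- The bijection between the trees. -/
theorem exists_equiv {f g : ℂ[X]} {z₀ : ℂ} {q : ℕ} (hc : Cover f g z₀ q)
    (hg : Nat.Coprime (ldeg g 0) q) {t s : ℂ} (hs : z₀ + s ^ q = t) (hs0 : s ≠ 0) :
    ∃ Φ : Vertex g s ≃ Vertex f t, ∀ v, (Φ v).1.1 = v.1.1 ∧ (Φ v).1.2 = z₀ + v.1.2 ^ q := by
  have hq := hc.qpos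
  let F : Vertex g s → Vertex f t := fun v => ⟨(v.1.1, z₀ + v.1.2 ^ q), by
    have h1 := it_semi hc v.1.1 v.1.2
    rw [v.2] at h1
    exact h1.trans hs⟩
  have hb : Function.Bijective F := by
    constructor
    · rintro ⟨⟨n, y⟩, hy⟩ ⟨⟨n', y'⟩, hy'⟩ h
      have h1 : n = n' := congrArg (fun w => w.1.1) h
      have h2 : z₀ + y ^ q = z₀ + y' ^ q := congrArg (fun w => w.1.2) h
      subst h1
      simp only at hy hy'
      have hyne : y ≠ 0 := ne_zero_of_it hc (by rw [hy]; exact hs0)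
      have hyne' : y' ≠ 0 := ne_zero_of_it hc (by rw [hy']; exact hs0)
      have h3 : (y / y') ^ q = 1 := by
        rw [div_pow, div_eq_one_iff_eq (pow_ne_zero _ hyne')]
        exact add_left_cancel h2
      have h4 := it_zeta hc (y / y') h3 n y'
      rw [div_mul_cancel₀ _ hyne', hy, hy'] at h4
      have h5 : (y / y') ^ (ldeg g 0 ^ n) = 1 := by
        have : ((y / y') ^ (ldeg g 0 ^ n) - 1) * s = 0 := by linear_combination -h4
        rcases mul_eq_zero.1 this with h | h
        · linear_combination h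
        · exact absurd h hs0
      have h6 : y / y' = 1 := by
        have h7 : Nat.gcd (ldeg g 0 ^ n) q = 1 := Nat.Coprime.pow_left _ hg
        have := pow_gcd_eq_one.2 ⟨h5, h3⟩
        rwa [h7, pow_one] at this
      have h7 : y = y' := (div_eq_one_iff_eq hyne').1 h6
      subst h7
      rfl
    · rintro ⟨⟨n, x⟩, hx⟩
      simp only at hx
      obtain ⟨u, hu1, hu2⟩ := lift_pt hc hg n x s (hx.trans hs.symm)
      refine ⟨⟨(n, u), hu2⟩, ?_⟩
      apply Subtype.ext
      exact Prod.ext rfl hu1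
  exact ⟨Equiv.ofBijective F hb, fun v => ⟨rfl, rfl⟩⟩

theorem cont_pi (z₀ : ℂ) (q : ℕ) : Continuous (fun y : ℂ => z₀ + y ^ q) := by fun_prop

/-- Projection of actions. -/
theorem acts_proj {f g : ℂ[X]} {z₀ : ℂ} {q : ℕ} (hc : Cover f g z₀ q) {t s : ℂ}
    (Φ : Vertex g s ≃ Vertex f t)
    (hΦ : ∀ v, (Φ v).1.1 = v.1.1 ∧ (Φ v).1.2 = z₀ + v.1.2 ^ q)
    (γ : Path t t) (δ : Path s s) (hδ : ∀ r, z₀ + (δ r) ^ q = γ r) (p : Equiv.Perm (Vertex g s))
    (hp : Acts g δ p) : Acts f γ (Φ.permCongr p) := by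
  intro v
  obtain ⟨u, rfl⟩ := Φ.surjective v
  rw [Equiv.permCongr_apply, Equiv.symm_apply_apply]
  obtain ⟨h1, Γ, hΓ⟩ := hp u
  refine ⟨by rw [(hΦ _).1, (hΦ _).1, h1], ?_⟩
  rw [(hΦ u).1, (hΦ u).2, (hΦ (p u)).2]
  refine ⟨Γ.map (cont_pi z₀ q), fun r => ?_⟩
  have h2 := it_semi hc u.1.1 (Γ r)
  rw [hΓ, hδ] at h2
  exact h2

/-- Lifting of loops by `z₀ + y ^ q`. -/
theorem exists_lift (hW : Stmt_W) {z₀ : ℂ} {q : ℕ} (hq : 1 ≤ q) {t s : ℂ} (hs : z₀ + s ^ q = t)
    (γ : Path t t) (hγ : ∀ r, γ r ≠ z₀) :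
    ∃ (e : ℂ) (δ : Path s e), (∀ r, z₀ + (δ r) ^ q = γ r) := by
  obtain ⟨k, L, hL, -⟩ := hW.1 (γ.toContinuousMap - ContinuousMap.const I z₀)
    (fun r => by
      have := hγ r
      simpa [sub_eq_zero] using this) (by simp)
  have hL' : ∀ r, γ r - z₀ = Complex.exp (L r) := by
    intro r
    simpa using hL r
  have hq0 : (q : ℂ) ≠ 0 := by exact_mod_cast (by omega : q ≠ 0)
  have h0 : s ^ q = Complex.exp (L 0) := by
    rw [← hL', γ.source, ← hs]; ring
  refine ⟨s * Complex.exp ((L 1 - L 0) / q), ⟨⟨fun r => s * Complex.exp ((L r - L 0) / q),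
    by fun_prop⟩, by simp, rfl⟩, fun r => ?_⟩
  change z₀ + (s * Complex.exp ((L r - L 0) / q)) ^ q = γ r
  rw [mul_pow, h0, ← Complex.exp_nat_mul, mul_div_cancel₀ _ hq0, ← Complex.exp_add]
  have h1 := hL' r
  rw [show L 0 + (L r - L 0) = L r by ring, ← h1]
  ring

theorem stmt_FT3 (hTR : Stmt_TR) (hL : Stmt_L) (hW : Stmt_W) : Stmt_FT3 := by
  intro f g z₀ q hc hfin t s hs ht hsP hs0 hbr
  have hq := hc.qpos
  have hg0 := cop_g hc hL
  have hcop : Nat.Coprime (ldeg g 0) q := hg0 ▸ hc.cop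
  obtain ⟨ft2a, ft2b, ft2c, -⟩ := stmt_FT2 hL f g z₀ q hc
  have hging := ft2c hfin
  have hdg := two_le_g hc
  obtain ⟨Φ, hΦ⟩ := exists_equiv hc hcop hs hs0
  have hAf := adm_postCrit f hc.two_le hfin
  have hAg := adm_postCrit g hdg hging
  have hLf := loopAct hTR f _ hAf t
  have hLg := loopAct hTR g _ hAg s
  -- the set to be avoided by loops at `s`
  set P' : Set ℂ := {0} ∪ (fun y : ℂ => z₀ + y ^ q) ⁻¹' (postCrit f) with hP'
  have hsub : postCrit g ⊆ P' := by
    intro y hy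
    rcases ft2a y hy with h | h
    · left; exact h
    · right; exact h
  have hP'fin : P'.Finite := by
    refine Set.Finite.union (Set.finite_singleton 0) ?_
    refine Set.Finite.preimage' hfin fun b _ => ?_
    have h2 : ((fun y : ℂ => z₀ + y ^ q) ⁻¹' {b}) ⊆
        ((C z₀ + X ^ q - C b : ℂ[X]).roots.toFinset : Set ℂ) := by
      intro y hy
      have hne : (C z₀ + X ^ q - C b : ℂ[X]) ≠ 0 := by
        intro h
        have : (C z₀ + X ^ q - C b : ℂ[X]).natDegree = q := by rw [natDegree_sub_C, natDegree_pi]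
        rw [h, natDegree_zero] at this
        omega
      simp only [Set.mem_preimage, Set.mem_singleton_iff] at hy
      simp only [Finset.mem_coe, Multiset.mem_toFinset]
      rw [mem_roots hne]
      simp [IsRoot, hy]
    exact Set.Finite.subset (Finset.finite_toSet _) h2
  have hsP' : s ∉ P' := by
    rintro (h | h)
    · exact hs0 h
    · rw [Set.mem_preimage, hs] at h
      exact ht h
  -- conjugation
  let c : Equiv.Perm (Vertex g s) →* Equiv.Perm (Vertex f t) := Φ.permCongrHom.toMonoidHom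
  have hcinj : Function.Injective c := Φ.permCongrHom.injective
  have hcapp : ∀ p, c p = Φ.permCongr p := fun p => rfl
  set H : Subgroup (Equiv.Perm (Vertex f t)) := (IMG g s).map c with hH
  have hHG : H ≤ IMG f t := by
    rintro _ ⟨p, hp, rfl⟩
    obtain ⟨δ, hδ, hact⟩ := exists_loop hTR g hdg hging s P' hP'fin hsub hsP' p hp
    set γ : Path t t := (δ.map (cont_pi z₀ q)).cast hs.symm hs.symm with hγ
    have hγr : ∀ r, z₀ + (δ r) ^ q = γ r := fun r => rfl
    refine mem_IMG f t γ ?_ _ (acts_proj hc Φ hΦ γ δ hγr p hact)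
    intro r hr
    exact hδ r (Or.inr (by rw [Set.mem_preimage, hγr]; exact hr))
  -- finite index
  have hfi : H.relIndex (IMG f t) ≠ 0 := by
    have hz0 : t ≠ z₀ := by
      rintro rfl
      have h1 : s ^ q = 0 := by linear_combination hs
      exact hs0 ((pow_eq_zero_iff (by omega)).1 h1)
    have hex : ∀ x : IMG f t, ∃ (γ : Path t t) (e : ℂ) (δ : Path s e),
        Av ({z₀} ∪ postCrit f) γ ∧
        Acts f γ x.1 ∧ ∀ r, z₀ + (δ r) ^ q = γ r := by
      intro x
      obtain ⟨γ, hγ, hact⟩ := exists_loop hTR f hc.two_le hfin t ({z₀} ∪ postCrit f)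
        ((Set.finite_singleton _).union hfin) Set.subset_union_right (by
          rintro (h | h)
          · exact hz0 h
          · exact ht h) x.1 x.2
      obtain ⟨e, δ, hδ⟩ := exists_lift hW hq hs γ (fun r hr => hγ r (Or.inl hr))
      exact ⟨γ, e, δ, hγ, hact, hδ⟩
    choose Γ e Δ hΓ hact hΔ using hex
    have he : ∀ x, e x ∈ ((C z₀ + X ^ q - C t : ℂ[X]).roots.toFinset : Set ℂ) := by
      intro x
      have hne : (C z₀ + X ^ q - C t : ℂ[X]) ≠ 0 := by
        intro h
        have : (C z₀ + X ^ q - C t : ℂ[X]).natDegree = q := by rw [natDegree_sub_C, natDegree_pi]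
        rw [h, natDegree_zero] at this
        omega
      have h1 := hΔ x 1
      rw [(Δ x).target, (Γ x).target] at h1
      simp only [Finset.mem_coe, Multiset.mem_toFinset]
      rw [mem_roots hne]
      simp [IsRoot, h1]
    -- same end point implies same coset
    have hsame : ∀ x y : IMG f t, e x = e y → (y⁻¹ * x : IMG f t).1 ∈ H := by
      intro x y hxy
      set γ : Path t t := (Γ x).trans (Γ y).symm with hγ
      set δ : Path s s := (Δ x).trans ((Δ y).cast rfl hxy).symm with hδ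
      have hγδ : ∀ r, z₀ + (δ r) ^ q = γ r := by
        intro r
        rw [hγ, hδ, Path.trans_apply, Path.trans_apply]
        split_ifs
        · exact hΔ x _
        · exact hΔ y _
      have hAvγ0 : Av ({z₀} ∪ postCrit f) γ := (hΓ x).trans (hΓ y).symm
      have hAvγ : Av (postCrit f) γ := fun r hr => hAvγ0 r (Or.inr hr)
      have hAvδ : Av (postCrit g) δ := by
        intro r hr
        rcases ft2a _ hr with h | h
        · have h1 := hγδ r
          rw [h, zero_pow (by omega), add_zero] at h1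
          exact hAvγ0 r (Or.inl h1.symm)
        · rw [hγδ] at h
          exact hAvγ r h
      obtain ⟨p, hp⟩ := hLg.ex δ hAvδ
      have hp1 := mem_IMG g s δ hAvδ p hp
      have h1 := acts_proj hc Φ hΦ γ δ hγδ p hp
      have h2 := hLf.mul _ _ _ _ (hact x) (hLf.inv _ _ (hact y))
      have h3 := hLf.uniq γ hAvγ _ _ h1 h2
      refine ⟨p, hp1, ?_⟩
      rw [hcapp, h3]
      rfl
    rw [Subgroup.relIndex]
    have hfinite : Finite (IMG f t ⧸ H.subgroupOf (IMG f t)) := by
      let F : (IMG f t ⧸ H.subgroupOf (IMG f t)) →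
          ((C z₀ + X ^ q - C t : ℂ[X]).roots.toFinset : Set ℂ) := fun x => ⟨e x.out, he _⟩
      refine Finite.of_injective F ?_
      intro x y hxy
      have h1 : e x.out = e y.out := congrArg Subtype.val hxy
      have h2 := hsame _ _ h1
      rw [← x.out_eq, ← y.out_eq]
      symm
      rw [QuotientGroup.eq]
      exact h2
    exact Subgroup.index_ne_zero_of_finite
  refine ⟨?_, ?_⟩
  · intro v w hvw
    obtain ⟨p, hp, hp2⟩ := hbr.1 (Φ.symm v) (Φ.symm w) (by
      have h1 := (hΦ (Φ.symm v)).1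
      have h2 := (hΦ (Φ.symm w)).1
      rw [Equiv.apply_symm_apply] at h1 h2
      rw [← h1, ← h2, hvw])
    refine ⟨c p, hHG ⟨p, hp, rfl⟩, ?_⟩
    rw [hcapp, Equiv.permCongr_apply, hp2, Equiv.apply_symm_apply]
  · intro n
    have h1 := hbr.2 n
    rw [← Subgroup.relIndex_map_map_of_injective _ _ hcinj] at h1
    have h2 : (ristLevel (IMG g s) n).map c ≤ ristLevel (IMG f t) n := by
      rw [ristLevel, Subgroup.map_iSup]
      refine iSup_le fun v => ?_
      refine le_trans ?_ (le_iSup (fun v : {v : Vertex f t // v.1.1 = n} => rist (IMG f t) v.1)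
        ⟨Φ v.1, by rw [(hΦ _).1, v.2]⟩)
      rintro _ ⟨p, ⟨hp1, hp2⟩, rfl⟩
      refine ⟨hHG ⟨p, hp1, rfl⟩, fun w hw => ?_⟩
      obtain ⟨u, rfl⟩ := Φ.surjective w
      rw [hcapp, Equiv.permCongr_apply, Equiv.symm_apply_apply, hp2 u]
      intro hsub2
      apply hw
      obtain ⟨h3, h4⟩ := hsub2
      have e1 := (hΦ u).1
      have e2 := (hΦ v.1).1
      have e3 := (hΦ u).2
      have e4 := (hΦ v.1).2
      change (Φ v.1).1.1 ≤ (Φ u).1.1 ∧ it f ((Φ u).1.1 - (Φ v.1).1.1) (Φ u).1.2 = (Φ v.1).1.2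
      rw [e1, e2, e3, e4, it_semi hc, h4]
      exact ⟨h3, rfl⟩
    have h3 : ((ristLevel (IMG g s) n).map c).relIndex (IMG f t) ≠ 0 :=
      Subgroup.relIndex_ne_zero_trans h1 hfi
    intro h4
    apply h3
    have h5 := Subgroup.relIndex_dvd_of_le_left (IMG f t) h2
    rw [h4] at h5
    exact Nat.eq_zero_of_zero_dvd h5

end FT

end PCF
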