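import Pool.Agent.Work.MP_80ff4e_al_helper10.NECb

/-!
# NEC: the first obstruction
-/

set_option autoImplicit false

open Polynomial unitInterval

namespace PCF

namespace NEC

theorem av_pw {P : Set ℂ} {a : ℂ} {δ : Path a a} (h : Av P δ) (j : ℕ) : Av P (pw δ j) := by
  have ha : a ∉ P := by have := h 0; rwa [δ.source] at this
  induction j with
  | zero => intro s; exact ha
  | succ j ih => exact ih.trans h

theorem small_av {P : Set ℂ} {z a : ℂ} {ρ : ℝ} {δ : Path a a} (h : Small P z ρ δ) : Av P δ :=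
  fun s hs => (h.2.1 s).1 (h.1 _ hs (h.2.1 s).2)

section

variable {f : ℂ[X]} {P : Set ℂ} (hA : Adm f P) (hTR : Stmt_TR)

include hA hTR

/-- Loops that act in the same way have the same winding number. -/
theorem same_wd {m k : ℕ} {a h : ℂ[X]} {y : ℂ} (hs : Setup f P m k a h y) (hL : Stmt_L)
    {b : ℂ} (γ δ : Path b b) (hγ : Av P γ) (hδ : Av P δ)
    (hsame : ∀ n z z', Tr f n γ z z' → Tr f n δ z z') (w w' : ℤ) (hw : Wd γ y w)
    (hw' : Wd δ y w') : w = w' := by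
  obtain ⟨tr_ex, tr_uniq, tr_end, -, tr_symm, tr_trans, -⟩ := hTR f P hA
  have h1 := hs.triv_zero hL hTR (γ.trans δ.symm) (hγ.trans hδ.symm) (by
    intro n z z' hz
    obtain ⟨z1, hz1⟩ := tr_ex n b b γ hγ z (tr_end _ _ _ _ _ _ hz).1
    have h2 := tr_trans _ _ _ _ _ _ _ _ _ hz1 (tr_symm _ _ _ _ _ _ (hsame _ _ _ hz1))
    exact tr_uniq _ _ _ _ (hγ.trans hδ.symm) _ _ _ h2 hz) _
    (wd_trans _ _ y _ _ hw (wd_symm _ y _ hw'))
  omega

/-- Powers. -/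
theorem acts_pow {t a : ℂ} (η : Path t a) (δ : Path a a) (hη : Av P η) (hδ : Av P δ)
    (g : Equiv.Perm (Vertex f t)) (hg : Acts f ((η.trans δ).trans η.symm) g) (j : ℕ) :
    Acts f ((η.trans (pw δ j)).trans η.symm) (g ^ j) := by
  obtain ⟨tr_ex, tr_uniq, tr_end, tr_refl, tr_symm, tr_trans, -⟩ := hTR f P hA
  induction j with
  | zero =>
    intro v
    refine ⟨rfl, ?_⟩
    obtain ⟨z1, hz1⟩ := tr_ex v.1.1 t a η hη v.1.2 v.2
    exact tr_trans _ _ _ _ _ _ _ _ _ (tr_trans _ _ _ _ _ _ _ _ _ hz1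
      (tr_refl _ _ _ (tr_end _ _ _ _ _ _ hz1).2)) (tr_symm _ _ _ _ _ _ hz1)
  | succ j ih =>
    intro v
    obtain ⟨z1, hz1⟩ := tr_ex v.1.1 t a η hη v.1.2 v.2
    obtain ⟨z2, hz2⟩ := tr_ex v.1.1 a a (pw δ j) (av_pw hδ j) z1 (tr_end _ _ _ _ _ _ hz1).2
    obtain ⟨w', hw'⟩ := tr_ex v.1.1 a t η.symm hη.symm z2 (tr_end _ _ _ _ _ _ hz2).2
    obtain ⟨z3, hz3⟩ := tr_ex v.1.1 a a δ hδ z2 (tr_end _ _ _ _ _ _ hz2).2
    obtain ⟨w, hw⟩ := tr_ex v.1.1 a t η.symm hη.symm z3 (tr_end _ _ _ _ _ _ hz3).2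
    have h1 := ih v
    have h2 := tr_trans _ _ _ _ _ _ _ _ _ (tr_trans _ _ _ _ _ _ _ _ _ hz1 hz2) hw'
    have h3 : ((g ^ j) v).1.2 = w' := tr_uniq _ _ _ _
      ((hη.trans (av_pw hδ j)).trans hη.symm) _ _ _ h1.2 h2
    have h4 := hg ((g ^ j) v)
    have h5 : Tr f v.1.1 η w' z2 := by
      have := tr_symm _ _ _ _ _ _ hw'
      rwa [Path.symm_symm] at this
    have h6 := tr_trans _ _ _ _ _ _ _ _ _ (tr_trans _ _ _ _ _ _ _ _ _ h5 hz3) hw
    rw [h3, h1.1] at h4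
    have h7 : (g ((g ^ j) v)).1.2 = w := tr_uniq _ _ _ _
      ((hη.trans hδ).trans hη.symm) _ _ _ h4.2 h6
    have h8 : (g ^ (j + 1)) v = g ((g ^ j) v) := by
      rw [pow_succ', Equiv.Perm.mul_apply]
    rw [h8]
    refine ⟨h4.1, ?_⟩
    rw [h7]
    exact tr_trans _ _ _ _ _ _ _ _ _ (tr_trans _ _ _ _ _ _ _ _ _ hz1
      (tr_trans _ _ _ _ _ _ _ _ _ hz2 hz3)) hw

end

/-- Lift of a concatenation. -/
theorem lift_trans {f : ℂ[X]} {m : ℕ} {a b c x y z : ℂ} {γ : Path a b} {δ : Path b c}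
    {Γ : Path x y} {Δ : Path y z} (h : ∀ s, it f m (Γ s) = γ s) (h' : ∀ s, it f m (Δ s) = δ s) :
    ∀ s, it f m ((Γ.trans Δ) s) = (γ.trans δ) s := by
  intro s
  rw [Path.trans_apply, Path.trans_apply]
  split_ifs
  · exact h _
  · exact h' _

theorem lift_pw {f : ℂ[X]} {m : ℕ} {a x : ℂ} {γ : Path a a} {Γ : Path x x}
    (hx : it f m x = a) (h : ∀ s, it f m (Γ s) = γ s) (j : ℕ) :
    ∀ s, it f m (pw Γ j s) = pw γ j s := by
  induction j with
  | zero => intro s; exact hx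
  | succ j ih => exact lift_trans ih h

/-- The elements all of whose lifts have winding number zero. -/
def Zsub (hTR : Stmt_TR) {f : ℂ[X]} {P : Set ℂ} {m k : ℕ} {a h : ℂ[X]} {y t : ℂ}
    (hs : Setup f P m k a h y) (hL : Stmt_L) (ht : t ∉ P) :
    Subgroup (Equiv.Perm (Vertex f t)) where
  carrier := {E | ∃ γ : Path t t, Av P γ ∧ Acts f γ E ∧ ∀ x, it f m x = t → ∃ Γ : Path x x,
    (∀ s, it f m (Γ s) = γ s) ∧ Wd Γ y 0}
  one_mem' := by
    refine ⟨Path.refl t, fun s => ht, (loopAct hTR f P hs.adm t).one, fun x hx => ?_⟩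
    refine ⟨Path.refl x, fun s => hx, wd_refl x y ?_⟩
    rintro rfl
    rw [hs.fy] at hx
    rw [← hx] at ht
    exact ht (hs.y_mem hL)
  mul_mem' := by
    rintro E₁ E₂ ⟨γ₁, hγ1, ha1, h1⟩ ⟨γ₂, hγ2, ha2, h2⟩
    refine ⟨γ₂.trans γ₁, hγ2.trans hγ1, (loopAct hTR f P hs.adm t).mul _ _ _ _ ha2 ha1,
      fun x hx => ?_⟩
    obtain ⟨Γ₁, hΓ1, hw1⟩ := h1 x hx
    obtain ⟨Γ₂, hΓ2, hw2⟩ := h2 x hx
    refine ⟨Γ₂.trans Γ₁, lift_trans hΓ2 hΓ1, ?_⟩
    simpa using wd_trans _ _ y _ _ hw2 hw1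
  inv_mem' := by
    rintro E ⟨γ, hγ, ha1, h1⟩
    refine ⟨γ.symm, hγ.symm, (loopAct hTR f P hs.adm t).inv _ _ ha1, fun x hx => ?_⟩
    obtain ⟨Γ, hΓ, hw⟩ := h1 x hx
    refine ⟨Γ.symm, fun s => hΓ _, ?_⟩
    simpa using wd_symm _ y _ hw

theorem rist_le_Zsub (hTR : Stmt_TR) {f : ℂ[X]} {m k : ℕ} {a h : ℂ[X]} {y t : ℂ}
    (hs : Setup f (postCrit f) m k a h y) (hL : Stmt_L) (ht : t ∉ postCrit f)
    (v : Vertex f t) (hv : v.1.1 = m) :
    rist (IMG f t) v ≤ Zsub hTR hs hL ht := by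
  classical
  rintro E ⟨hE, hE2⟩
  obtain ⟨tr_ex, tr_uniq, tr_end, tr_refl, tr_symm, tr_trans, -, -, tr_iter, -⟩ :=
    hTR f _ hs.adm
  obtain ⟨γ, hγ, hact⟩ := exists_loop hTR f hs.adm.deg hs.adm.fin t (postCrit f) hs.adm.fin
    le_rfl ht E hE
  -- `E` fixes the level `m`
  have hsub : ∀ w : Vertex f t, w.1.1 = m → InSubtree v w → w = v := by
    intro w hw h
    have h1 := h.2
    rw [hw, hv, Nat.sub_self] at h1
    exact Subtype.ext (Prod.ext (hw.trans hv.symm) h1)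
  have hfix : ∀ w : Vertex f t, w.1.1 = m → E w = w := by
    intro w hw
    by_cases hwv : w = v
    · by_contra hne
      have h1 : (E w).1.1 = m := (hact w).1.trans hw
      have h2 : E (E w) = E w := by
        apply hE2
        intro h3
        exact hne ((hsub _ h1 h3).trans hwv.symm)
      exact hne (E.injective h2)
    · exact hE2 w (fun h3 => hwv (hsub w hw h3))
  -- lifts
  have h1 : ∀ x, ∃ Γ : Path x x, it f m x = t → ∀ s, it f m (Γ s) = γ s := by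
    intro x
    by_cases hx : it f m x = t
    · have h2 := (hact ⟨(m, x), hx⟩).2
      rw [hfix _ rfl] at h2
      obtain ⟨Γ, hΓ⟩ := h2
      exact ⟨Γ, fun _ => hΓ⟩
    · exact ⟨Path.refl x, fun h => absurd h hx⟩
  choose Γ hΓ using h1
  have hyP := hs.y_mem hL
  set x₀ := v.1.2 with hx0
  have hx0t : it f m x₀ = t := by rw [← hv]; exact v.2
  have hav : ∀ x, it f m x = t → Av (postCrit f) (Γ x) := fun x hx =>
    (tr_iter 0 m t t γ x x (Γ x) hγ (hΓ x hx)).1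
  have hne0 : ∀ x, it f m x = t → x ≠ x₀ → Wd (Γ x) y 0 := by
    intro x hx hne
    obtain ⟨w, hw⟩ := wd_exists (Γ x) y (fun s hs' => hav x hx s (by rw [hs']; exact hyP))
    have h2 := hs.triv_zero hL hTR (Γ x) (hav x hx) (by
      intro n z z' hz
      have h3 := (tr_end n x x (Γ x) z z' hz).1
      have h4 := ((tr_iter n m t t γ x x (Γ x) hγ (hΓ x hx)).2 z z' h3).1 hz
      have h5 : it f (n + m) z = t := by
        rw [add_comm, FT.it_add, h3, hx]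
      have h6 := (hact ⟨(n + m, z), h5⟩).2
      rw [hE2 _ (by
        rintro ⟨-, h7⟩
        rw [hv, Nat.add_sub_cancel] at h7
        exact hne (h3.symm.trans h7))] at h6
      exact tr_uniq _ _ _ _ hγ _ _ _ h6 h4) w hw
    rwa [h2] at hw
  obtain ⟨w₀, hw0⟩ := wd_exists (Γ x₀) y
    (fun s hs' => hav x₀ hx0t s (by rw [hs']; exact hyP))
  have ha0 : a.eval 0 = y := by
    have := hs.hF y
    rw [hs.hy, zero_pow (by have := hs.hk; omega), hs.fy] at this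
    exact this.symm
  have hhx0 : h.eval x₀ ≠ 0 := by
    intro h3
    have h4 := hs.hF x₀
    rw [h3, zero_pow (by have := hs.hk; omega), ha0, hx0t] at h4
    rw [h4] at ht
    exact ht hyP
  obtain ⟨ha, hh⟩ := hs.degs hL
  have hprim := Complex.isPrimitiveRoot_exp k (by have := hs.hk; omega)
  set ω := Complex.exp (2 * Real.pi * Complex.I / k) with hω
  have hω1 : ω ≠ 1 := hprim.ne_one (by have := hs.hk; omega)
  have hlev : ∀ x, h.eval x = h.eval x₀ ∨ h.eval x = ω * h.eval x₀ → it f m x = t := by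
    intro x hx
    rw [hs.hF]
    rw [hs.hF] at hx0t
    rcases hx with hx | hx
    · rw [hx, hx0t]
    · rw [hx, mul_pow, hprim.pow_eq_one, one_mul, hx0t]
  have hb := hs.block_eq hL γ hγ (h.eval x₀) (ω * h.eval x₀)
    (by rw [mul_pow, hprim.pow_eq_one, one_mul]) Γ (fun x hx => hΓ x (hlev x hx))
    (fun x => if x = x₀ then w₀ else 0) (by
      intro x hx
      by_cases hxx : x = x₀
      · rw [if_pos hxx, hxx]; exact hw0
      · rw [if_neg hxx]; exact hne0 x (hlev x hx) hxx)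
  have hw00 : w₀ = 0 := by
    rw [Finset.sum_ite_eq' , Finset.sum_ite_eq'] at hb
    rw [if_pos ((hL.2.2.2.1 h hh _ _).2 rfl), if_neg] at hb
    · exact hb
    · intro h3
      have h4 := (hL.2.2.2.1 h hh _ _).1 h3
      apply hω1
      have h5 : (ω - 1) * h.eval x₀ = 0 := by linear_combination -h4
      rcases mul_eq_zero.1 h5 with h6 | h6
      · linear_combination h6
      · exact absurd h6 hhx0
  refine ⟨γ, hγ, hact, fun x hx => ⟨Γ x, hΓ x hx, ?_⟩⟩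
  by_cases hxx : x = x₀
  · rw [hxx]; rw [hw00] at hw0; exact hw0
  · exact hne0 x hx hxx

theorem stmt_NEC (hTR : Stmt_TR) (hL : Stmt_L) (hSM : Stmt_SM) (hLC : Stmt_LC) : Stmt_NEC := by
  rintro f t hd hfin ht ⟨m₀, k, a₀, h, y, hm0, hk, hF0, hy, p, hp, hpy⟩ hbr
  have hA := adm_postCrit f hd hfin
  have hyj : ∀ j, it f (j * p) y = y := by
    intro j
    induction j with
    | zero => simp [FT.it_zero]
    | succ j ih => rw [Nat.succ_mul, FT.it_add, hpy, ih]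
  have hs : Setup f (postCrit f) (m₀ * p) k ((itp f (m₀ * (p - 1))).comp a₀) h y := by
    refine ⟨hA, Nat.mul_pos hm0 hp, hk, ?_, hy, hyj m₀⟩
    intro z
    have h1 : m₀ * p = m₀ * (p - 1) + m₀ := by
      obtain ⟨p, rfl⟩ := Nat.exists_eq_add_of_le' hp
      rw [Nat.add_sub_cancel]; ring
    rw [h1, FT.it_add, hF0, eval_comp, hL.1]
  generalize hmm : m₀ * p = m at hs
  generalize (itp f (m₀ * (p - 1))).comp a₀ = a at hs
  have hyP := hs.y_mem hL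
  obtain ⟨tr_ex, tr_uniq, tr_end, tr_refl, tr_symm, tr_trans, -, -, tr_iter, -, tr_conn, -⟩ :=
    hTR f _ hA
  have hLA := loopAct hTR f _ hA t
  have hZ : ristLevel (IMG f t) m ≤ Zsub hTR hs hL ht := by
    rw [ristLevel]
    exact iSup_le fun v => rist_le_Zsub hTR hs hL ht v.1 v.2
  obtain ⟨a', ρ, δ, hδ, hδav, -⟩ := (hSM f _ hA).1 y 1 one_pos
  have ha' : a' ∉ postCrit f := by have := hδav 0; rwa [δ.source] at this
  obtain ⟨η, hη⟩ := tr_conn t a' ht ha'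
  have hθ : Av (postCrit f) ((η.trans δ).trans η.symm) := (hη.trans hδav).trans hη.symm
  obtain ⟨g, hg⟩ := hLA.ex _ hθ
  have hgG := mem_IMG f t _ hθ g hg
  obtain ⟨J, hJ, -, hJ2⟩ := Subgroup.exists_pow_mem_of_relIndex_ne_zero (hbr.2 m) hgG
  set N := ldeg (itp f m) y with hN
  obtain ⟨π, -, hπ2, -, -, hπ5, -⟩ := hLC f _ hA m y a' ρ δ hδ
  obtain ⟨x₁, hx1, hx1'⟩ := hπ2 y hs.fy
  obtain ⟨Γ₁, hΓ1, a'', η', ρ', δ', hη', hδ', heq⟩ := hπ5 x₁ hx1
  rw [hx1', ← hN] at hΓ1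
  rw [hx1'] at hδ'
  have hΓ1av : Av (postCrit f) Γ₁ := (tr_iter 0 m _ _ _ _ _ Γ₁ (av_pw hδav N) hΓ1).1
  obtain ⟨w₁, hw1⟩ := wd_exists Γ₁ y (fun s hs' => hΓ1av s (by rw [hs']; exact hyP))
  have hw1' : w₁ = 1 := by
    refine same_wd hA hTR hs hL Γ₁ ((η'.trans δ').trans η'.symm) hΓ1av
      ((hη'.trans (small_av hδ')).trans hη'.symm) (fun n z z' hz => (heq n z z').1 hz) w₁ 1 hw1 ?_
    exact wd_conj η' δ' y 1 (fun s hs' => hη' s (by rw [hs']; exact hyP)) hδ'.2.2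
  rw [hw1'] at hw1
  have hx1y : x₁ ≠ y := by
    rintro rfl
    have := hΓ1av 0
    rw [Γ₁.source] at this
    exact this hyP
  have hpwΓ := wd_pw Γ₁ y 1 hx1y hw1 J
  -- the tail
  obtain ⟨x₂, E₁, hE1⟩ := tr_ex m a' t η.symm hη.symm x₁ hx1
  have hE1av : Av (postCrit f) E₁ := (tr_iter 0 m _ _ _ _ _ E₁ hη.symm hE1).1
  have hx2 : it f m x₂ = t := (tr_end m _ _ η.symm x₁ x₂ ⟨E₁, hE1⟩).2
  set Λ : Path x₂ x₂ := (E₁.symm.trans (pw Γ₁ J)).trans E₁ with hΛ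
  have hΛw : Wd Λ y (J * 1) := by
    have := wd_conj E₁.symm (pw Γ₁ J) y _ (fun s hs' => hE1av.symm s (by
      rw [hs']; exact hyP)) hpwΓ
    rwa [Path.symm_symm] at this
  set θ' : Path t t := (η.trans (pw (pw δ N) J)).trans η.symm with hθ'
  have hθ'av : Av (postCrit f) θ' := (hη.trans (av_pw (av_pw hδav N) J)).trans hη.symm
  have hΛl : ∀ s, it f m (Λ s) = θ' s := by
    refine lift_trans (lift_trans (γ := η) ?_ (lift_pw hx1 hΓ1 J)) hE1
    intro s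
    have h1 := hE1 (unitInterval.symm s)
    have h2 : η.symm (unitInterval.symm s) = η s := by
      change η (unitInterval.symm (unitInterval.symm s)) = η s
      rw [unitInterval.symm_symm]
    rw [h2] at h1
    exact h1
  have hΛav : Av (postCrit f) Λ := (tr_iter 0 m _ _ _ _ _ Λ hθ'av hΛl).1
  have hact' : Acts f θ' ((g ^ N) ^ J) :=
    acts_pow hA hTR η (pw δ N) hη (av_pw hδav N) (g ^ N)
      (acts_pow hA hTR η δ hη hδav g hg N) J
  have hmem : (g ^ N) ^ J ∈ Zsub hTR hs hL ht := by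
    rw [← pow_mul, mul_comm, pow_mul]
    exact Subgroup.pow_mem _ (hZ hJ2.1) N
  obtain ⟨γ, hγ, hactγ, hlift⟩ := hmem
  obtain ⟨Γ, hΓ, hΓw⟩ := hlift x₂ hx2
  have hΓav : Av (postCrit f) Γ := (tr_iter 0 m _ _ _ _ _ Γ hγ hΓ).1
  have hfin2 := same_wd hA hTR hs hL Γ Λ hΓav hΛav (by
    intro n z z' hz
    have h3 := (tr_end n _ _ Γ z z' hz).1
    have h4 := ((tr_iter n m _ _ γ _ _ Γ hγ hΓ).2 z z' h3).1 hz
    rw [(tr_iter n m _ _ θ' _ _ Λ hθ'av hΛl).2 z z' h3]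
    have h5 : it f (n + m) z = t := by
      rw [add_comm, FT.it_add, h3, hx2]
    have h6 := (hactγ ⟨(n + m, z), h5⟩).2
    have h7 := (hact' ⟨(n + m, z), h5⟩).2
    rw [tr_uniq _ _ _ _ hγ _ _ _ h4 h6]
    exact h7) 0 (J * 1) hΓw hΛw
  have : (J : ℤ) = 0 := by linarith
  omega

end NEC

end PCF
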