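import Pool.Agent.Work.MP_80ff4e_al_helper39.GENa
import Pool.Agent.Work.MP_80ff4e_al_helper10.FT2

/-!
# Elements of the iterated monodromy group and single loops
-/

set_option autoImplicit false

open Polynomial unitInterval

namespace PCF

/-- The loop `γ` at `t` acts on the vertices as `g`. -/
def Acts (f : ℂ[X]) {t : ℂ} (γ : Path t t) (g : Equiv.Perm (Vertex f t)) : Prop :=
  ∀ v : Vertex f t, (g v).1.1 = v.1.1 ∧ Tr f v.1.1 γ v.1.2 (g v).1.2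

theorem actsAs_iff (f : ℂ[X]) {t : ℂ} (γ : Path t t) (g : Equiv.Perm (Vertex f t)) :
    ActsAs f t γ.toContinuousMap g ↔ Acts f γ g := by
  refine forall_congr' fun v => and_congr_right fun _ => ?_
  constructor
  · rintro ⟨Γ, h0, h1, h⟩
    exact ⟨⟨Γ, h0, h1⟩, h⟩
  · rintro ⟨Γ, h⟩
    exact ⟨Γ.toContinuousMap, Γ.source, Γ.target, h⟩

theorem adm_postCrit (f : ℂ[X]) (hd : 2 ≤ f.natDegree) (hfin : (postCrit f).Finite) :
    Adm f (postCrit f) := by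
  refine ⟨hd, hfin, ?_, ?_⟩
  · rintro z ⟨c, hc, n, hn, rfl⟩
    exact ⟨c, hc, n + 1, by omega, FT.it_succ' f n c⟩
  · intro c hc
    exact ⟨c, hc, 1, le_rfl, rfl⟩

/-- The consequences of TR for loops at `t`. -/
structure LoopAct (f : ℂ[X]) (t : ℂ) (P : Set ℂ) : Prop where
  ex : ∀ γ : Path t t, Av P γ → ∃ g : Equiv.Perm (Vertex f t), Acts f γ g
  uniq : ∀ γ : Path t t, Av P γ → ∀ g g' : Equiv.Perm (Vertex f t), Acts f γ g → Acts f γ g' →
    g = g'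
  one : Acts f (Path.refl t) 1
  mul : ∀ γ δ : Path t t, ∀ g h : Equiv.Perm (Vertex f t), Acts f γ g → Acts f δ h →
    Acts f (γ.trans δ) (h * g)
  inv : ∀ γ : Path t t, ∀ g : Equiv.Perm (Vertex f t), Acts f γ g → Acts f γ.symm g⁻¹

theorem loopAct (hTR : Stmt_TR) (f : ℂ[X]) (P : Set ℂ) (hP : Adm f P) (t : ℂ) :
    LoopAct f t P := by
  obtain ⟨tr_ex, tr_uniq, tr_end, tr_refl, tr_symm, tr_trans, -⟩ := hTR f P hP
  refine ⟨?_, ?_, ?_, ?_, ?_⟩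
  · intro γ hγ
    have h1 : ∀ v : Vertex f t, ∃ w : Vertex f t, w.1.1 = v.1.1 ∧ Tr f v.1.1 γ v.1.2 w.1.2 := by
      rintro ⟨⟨n, z⟩, hz⟩
      obtain ⟨w, hw⟩ := tr_ex n t t γ hγ z hz
      exact ⟨⟨(n, w), (tr_end n t t γ z w hw).2⟩, rfl, hw⟩
    choose F hF1 hF2 using h1
    have hb : Function.Bijective F := by
      constructor
      · intro v v' h
        have h1 := hF2 v
        have h2 := hF2 v'
        have h3 : v.1.1 = v'.1.1 := by rw [← hF1 v, ← hF1 v', h]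
        rw [h] at h1
        rw [← h3] at h2
        have h4 := tr_uniq _ _ _ _ hγ.symm _ _ _ (tr_symm _ _ _ _ _ _ h1)
          (tr_symm _ _ _ _ _ _ h2)
        exact Subtype.ext (Prod.ext h3 h4)
      · rintro ⟨⟨n, w⟩, hw⟩
        obtain ⟨z, hz⟩ := tr_ex n t t γ.symm hγ.symm w hw
        refine ⟨⟨(n, z), (tr_end n t t _ w z hz).2⟩, ?_⟩
        set v : Vertex f t := ⟨(n, z), (tr_end n t t _ w z hz).2⟩ with hv
        have h1 := hF2 v
        have h2 := tr_symm _ _ _ _ _ _ hz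
        rw [Path.symm_symm] at h2
        exact Subtype.ext (Prod.ext (hF1 v) (tr_uniq _ _ _ _ hγ _ _ _ h1 h2))
    exact ⟨Equiv.ofBijective F hb, fun v => ⟨hF1 v, hF2 v⟩⟩
  · intro γ hγ g g' hg hg'
    ext v : 1
    have h1 := hg v
    have h2 := hg' v
    exact Subtype.ext (Prod.ext (h1.1.trans h2.1.symm) (tr_uniq _ _ _ _ hγ _ _ _ h1.2 h2.2))
  · intro v
    exact ⟨rfl, tr_refl _ _ _ v.2⟩
  · intro γ δ g h hg hh v
    have h1 := hg v
    have h2 := hh (g v)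
    refine ⟨h2.1.trans h1.1, ?_⟩
    rw [h1.1] at h2
    exact tr_trans _ _ _ _ _ _ _ _ _ h1.2 h2.2
  · intro γ g hg v
    have h1 := hg (g⁻¹ v)
    have h2 : g (g⁻¹ v) = v := by simp
    rw [h2] at h1
    refine ⟨h1.1.symm, ?_⟩
    rw [← h1.1] at h1
    exact tr_symm _ _ _ _ _ _ h1.2

/-- Every element of the iterated monodromy group is induced by a loop that avoids a given finite
set. -/
theorem exists_loop (hTR : Stmt_TR) (f : ℂ[X]) (hd : 2 ≤ f.natDegree) (hfin : (postCrit f).Finite)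
    (t : ℂ) (P' : Set ℂ) (hP' : P'.Finite) (hsub : postCrit f ⊆ P') (ht : t ∉ P')
    (g : Equiv.Perm (Vertex f t)) (hg : g ∈ IMG f t) :
    ∃ γ : Path t t, Av P' γ ∧ Acts f γ g := by
  have hP := adm_postCrit f hd hfin
  have hLA := loopAct hTR f _ hP t
  have hpert := (hTR f _ hP).2.2.2.2.2.2.2.2.2.2.2.2
  refine Subgroup.closure_induction (p := fun g _ => ∃ γ : Path t t, Av P' γ ∧ Acts f γ g)
    ?_ ?_ ?_ ?_ hg
  · rintro g ⟨γ, h0, h1, hγ, hact⟩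
    obtain ⟨γ', hγ', h2⟩ := hpert P' hP' hsub t t ht ht ⟨γ, h0, h1⟩ hγ
    refine ⟨γ', hγ', fun v => ?_⟩
    have h3 := (actsAs_iff f ⟨γ, h0, h1⟩ g).1 hact v
    exact ⟨h3.1, (h2 _ _ _).1 h3.2⟩
  · exact ⟨Path.refl t, fun s => ht, hLA.one⟩
  · rintro g h - - ⟨γ, hγ, h1⟩ ⟨δ, hδ, h2⟩
    exact ⟨δ.trans γ, hδ.trans hγ, hLA.mul _ _ _ _ h2 h1⟩
  · rintro g - ⟨γ, hγ, h1⟩
    exact ⟨γ.symm, hγ.symm, hLA.inv _ _ h1⟩

theorem mem_IMG (f : ℂ[X]) (t : ℂ) (γ : Path t t) (hγ : Av (postCrit f) γ)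
    (g : Equiv.Perm (Vertex f t)) (hg : Acts f γ g) : g ∈ IMG f t :=
  Subgroup.subset_closure ⟨γ.toContinuousMap, γ.source, γ.target, hγ, (actsAs_iff f γ g).2 hg⟩

end PCF
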