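import Pool.Agent.Work.MP_80ff4e_al_helper10.FT2

/-!
# FT4: transfer of decompositions
-/

set_option autoImplicit false

open Polynomial

namespace PCF

namespace FT

theorem inv_expand (P : ℂ[X]) (q : ℕ) (hq : 1 ≤ q) (ζ : ℂ) (hζ : IsPrimitiveRoot ζ q)
    (h : ∀ z, P.eval (ζ * z) = P.eval z) : ∃ P₁ : ℂ[X], ∀ z, P.eval z = P₁.eval (z ^ q) := by
  have h1 : P.comp (C ζ * X) = P := by
    apply Polynomial.funext
    intro z
    simpa using h z
  have h2 : ∀ n, ¬ q ∣ n → P.coeff n = 0 := by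
    intro n hn
    have h3 := congrArg (fun p => coeff p n) h1
    simp only [comp_C_mul_X_coeff] at h3
    have h4 : ζ ^ n ≠ 1 := fun h => hn (hζ.dvd_of_pow_eq_one _ h)
    have h5 : P.coeff n * (ζ ^ n - 1) = 0 := by linear_combination h3
    exact (mul_eq_zero.1 h5).resolve_right (sub_ne_zero.2 h4)
  refine ⟨contract q P, fun z => ?_⟩
  have h3 : expand ℂ q (contract q P) = P := by
    ext n
    rw [coeff_expand (by omega)]
    split_ifs with h
    · rw [coeff_contract (by omega), Nat.div_mul_cancel h]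
    · exact (h2 n h).symm
  conv_lhs => rw [← h3]
  rw [expand_eval]

theorem exists_eval_eq (B : ℂ[X]) (hB : 1 ≤ B.natDegree) (w : ℂ) : ∃ z, B.eval z = w := by
  have h1 : (B - C w).degree ≠ 0 := by
    intro h
    have h2 : (B - C w).natDegree = 0 := natDegree_eq_of_degree_eq_some h
    rw [natDegree_sub_C] at h2
    omega
  obtain ⟨z, hz⟩ := IsAlgClosed.exists_root _ h1
  refine ⟨z, ?_⟩
  have : eval z (B - C w) = 0 := hz
  simpa [sub_eq_zero] using this

theorem unit_factor (h h' : ℂ[X]) (k : ℕ) (hk : 2 ≤ k) (α β : ℂ) (hα : α ≠ 0)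
    (hd : 1 ≤ h.natDegree) (he : h' ^ k = C α * h ^ k + C β) : β = 0 := by
  classical
  by_contra hβ
  obtain ⟨α', hα'⟩ := IsAlgClosed.exists_pow_nat_eq α (by omega : 0 < k)
  have hprim0 := Complex.isPrimitiveRoot_exp k (by omega)
  set ξ := Complex.exp (2 * Real.pi * Complex.I / k) with hξ
  have hprim : IsPrimitiveRoot (C ξ : ℂ[X]) k :=
    hprim0.map_of_injective (f := (C : ℂ →+* ℂ[X])) C_injective
  have h1 := hprim.pow_sub_pow_eq_prod_sub_mul h' (C α' * h) (by omega : 0 < k)
  have h2 : h' ^ k - (C α' * h) ^ k = C β := by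
    rw [he, mul_pow, ← C_pow, hα']; ring
  rw [h2] at h1
  have h3 : ∀ ω ∈ nthRootsFinset k (1 : ℂ[X]), (h' - ω * (C α' * h)).natDegree = 0 := by
    intro ω hω
    have h4 : (h' - ω * (C α' * h)) ∣ C β := by
      rw [h1]
      exact Finset.dvd_prod_of_mem _ hω
    have h5 := natDegree_le_of_dvd h4 (C_ne_zero.2 hβ)
    rw [natDegree_C] at h5
    omega
  have h4 := h3 1 (by rw [mem_nthRootsFinset (by omega)]; simp)
  have h5 := h3 (C ξ) (by rw [mem_nthRootsFinset (by omega)]; exact hprim.pow_eq_one)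
  obtain ⟨c₁, hc1⟩ := natDegree_eq_zero.1 h4
  obtain ⟨c₂, hc2⟩ := natDegree_eq_zero.1 h5
  have hξ1 : ξ ≠ 1 := hprim0.ne_one (by omega)
  have hα0 : α' ≠ 0 := by
    rintro rfl
    rw [zero_pow (by omega)] at hα'
    exact hα hα'.symm
  have h6 : C ((ξ - 1) * α') * h = C (c₁ - c₂) := by
    have h8 : C (c₁ - c₂) = (h' - 1 * (C α' * h)) - (h' - C ξ * (C α' * h)) := by
      rw [← hc1, ← hc2, C_sub]
    rw [h8, C_mul, C_sub, C_1]
    ring
  have h7 := congrArg natDegree h6
  rw [natDegree_C, natDegree_C_mul (mul_ne_zero (sub_ne_zero.2 hξ1) hα0)] at h7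
  omega

theorem stmt_FT4 (hL : Stmt_L) (hPA : Stmt_PA1) : Stmt_FT4 := by
  intro f g z₀ q hc m k a h y hm hk hG hy
  have hq := hc.qpos
  have hg0 := cop_g hc hL
  have hcop : Nat.Coprime (ldeg g 0) q := hg0 ▸ hc.cop
  have hd := two_le_g hc
  -- polynomial identity
  have hGp : itp g m = a.comp (h ^ k) := by
    apply Polynomial.funext
    intro z
    rw [hL.1, hG]
    simp
  have hGd : 1 ≤ (itp g m).natDegree := by
    rw [hL.2.1]; exact Nat.one_le_pow _ _ (by omega)
  have hdeg : a.natDegree * (k * h.natDegree) = (itp g m).natDegree := by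
    rw [hGp, natDegree_comp, natDegree_pow]
  have hh : 1 ≤ h.natDegree := by
    rcases Nat.eq_zero_or_pos h.natDegree with h0 | h0
    · rw [h0] at hdeg; simp at hdeg; omega
    · exact h0
  have had : 1 ≤ a.natDegree := by
    rcases Nat.eq_zero_or_pos a.natDegree with h0 | h0
    · rw [h0] at hdeg; simp at hdeg; omega
    · exact h0
  have hh0 : h ≠ 0 := by rintro rfl; simp at hh
  have ha0 : a ≠ 0 := by rintro rfl; simp at had
  -- primitive root
  have hζp := Complex.isPrimitiveRoot_exp q (by omega)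
  set ζ := Complex.exp (2 * Real.pi * Complex.I / q) with hζ
  have hζ1 : ζ ^ q = 1 := hζp.pow_eq_one
  have hζ0 : ζ ≠ 0 := hζp.ne_zero (by omega)
  set M := (ldeg g 0) ^ m with hM
  have hMq : Nat.Coprime M q := Nat.Coprime.pow_left _ hcop
  have hGz : ∀ z, it g m (ζ * z) = ζ ^ M * it g m z := fun z => it_zeta hc ζ hζ1 m z
  have hkey : (C (ζ ^ M) * a).comp (h ^ k) = a.comp ((h.comp (C ζ * X)) ^ k) := by
    apply Polynomial.funext
    intro z
    have h1 := hGz z
    rw [hG, hG] at h1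
    simp only [mul_comp, C_comp, eval_mul, eval_C, eval_comp, eval_pow, eval_X]
    exact h1.symm
  have hBd : (h ^ k).natDegree = ((h.comp (C ζ * X)) ^ k).natDegree := by
    rw [natDegree_pow, natDegree_pow, natDegree_comp, natDegree_C_mul_X _ hζ0, mul_one]
  have hBd1 : 1 ≤ (h ^ k).natDegree := by
    rw [natDegree_pow]
    exact Nat.mul_pos (by omega) hh
  obtain ⟨α, β, hα, hαβ⟩ := hPA _ _ _ _ hkey hBd hBd1
    (by rw [natDegree_C_mul (pow_ne_zero _ hζ0)]; exact had)
  have hβ := unit_factor h _ k hk α β hα hh hαβ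
  rw [hβ, C_0, add_zero] at hαβ
  obtain ⟨α', hα'⟩ := IsAlgClosed.exists_pow_nat_eq α (by omega : 0 < k)
  obtain ⟨η, -, hη⟩ := pow_eq_pow_poly (h.comp (C ζ * X)) (C α' * h) k (by omega)
    (by rw [hαβ, mul_pow, ← C_pow, hα'])
  set ζ' := η * α' with hζ'
  have hhz : ∀ z, h.eval (ζ * z) = ζ' * h.eval z := by
    intro z
    have h1 := congrArg (eval z) hη
    simp only [eval_comp, eval_mul, eval_C, eval_X] at h1
    rw [h1, hζ']; ring
  have hhj : ∀ (j : ℕ) z, h.eval (ζ ^ j * z) = ζ' ^ j * h.eval z := by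
    intro j
    induction j with
    | zero => intro z; simp
    | succ j ih => intro z; rw [pow_succ', mul_assoc, hhz, ih, pow_succ']; ring
  have hζ'q : ζ' ^ q = 1 := by
    have h1 : C (1 - ζ' ^ q) * h = 0 := by
      apply Polynomial.funext
      intro z
      have h2 := hhj q z
      rw [hζ1, one_mul] at h2
      simp only [eval_mul, eval_C, eval_zero]
      linear_combination h2
    rcases mul_eq_zero.1 h1 with h2 | h2
    · have := C_eq_zero.1 h2
      linear_combination -this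
    · exact absurd h2 hh0
  set ω := ζ' ^ k with hω
  have haω : ∀ w, a.eval (ω * w) = ζ ^ M * a.eval w := by
    intro w
    obtain ⟨z, hz⟩ := exists_eval_eq (h ^ k) hBd1 w
    have h1 := hGz z
    rw [hG, hG, hhz, mul_pow] at h1
    rw [← hz, eval_pow]
    exact h1
  have haj : ∀ (j : ℕ) w, a.eval (ω ^ j * w) = ζ ^ (M * j) * a.eval w := by
    intro j
    induction j with
    | zero => intro w; simp
    | succ j ih => intro w; rw [pow_succ', mul_assoc, haω, ih]; ring
  have hωp : IsPrimitiveRoot ω q := by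
    refine ⟨by rw [hω, ← pow_mul, mul_comm, pow_mul, hζ'q, one_pow], fun l hl => ?_⟩
    have h1 : C (1 - ζ ^ (M * l)) * a = 0 := by
      apply Polynomial.funext
      intro w
      have h2 := haj l w
      rw [hl, one_mul] at h2
      simp only [eval_mul, eval_C, eval_zero]
      linear_combination h2
    have h2 : ζ ^ (M * l) = 1 := by
      rcases mul_eq_zero.1 h1 with h2 | h2
      · have := C_eq_zero.1 h2
        linear_combination -this
      · exact absurd h2 ha0
    exact (hMq.symm).dvd_of_dvd_mul_left (hζp.dvd_of_pow_eq_one _ h2)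
  obtain ⟨h₁, hh₁⟩ := inv_expand (h ^ q) q hq ζ hζp (by
    intro z; rw [eval_pow, hhz, mul_pow, hζ'q, one_mul, eval_pow])
  obtain ⟨a₁, ha₁⟩ := inv_expand (a ^ q) q hq ω hωp (by
    intro z
    rw [eval_pow, haω, mul_pow, ← pow_mul, mul_comm M q, pow_mul, hζ1, one_pow, one_mul,
      eval_pow])
  refine ⟨C z₀ + a₁, h₁.comp (X - C z₀), ?_, ?_⟩
  · intro z
    obtain ⟨u, hu⟩ := IsAlgClosed.exists_pow_nat_eq (z - z₀) (by omega : 0 < q)
    have hz : z = z₀ + u ^ q := by rw [hu]; ring
    have h1 := hh₁ u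
    have h2 := ha₁ (h.eval u ^ k)
    rw [eval_pow] at h1 h2
    rw [hz, it_semi hc, hG, h2, ← pow_mul, mul_comm k q, pow_mul, h1]
    simp
  · have h1 := hh₁ y
    rw [eval_pow, hy, zero_pow (by omega)] at h1
    simp [← h1]

end FT

end PCF
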