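import Pool.Agent.Work.MP_80ff4e_al_helper10.Acts
import Pool.Agent.Work.MP_80ff4e_al_helper39.W

/-!
# NEC, part a: winding numbers of paths, lifts by polynomials, push formula
-/

set_option autoImplicit false

open Polynomial unitInterval

namespace PCF

namespace NEC

/-- The path `γ` avoids `y` and its continuous logarithm around `y` changes by `d`. -/
def Inc {a b : ℂ} (γ : Path a b) (y d : ℂ) : Prop :=
  ∃ L : C(I, ℂ), (∀ s, γ s - y = Complex.exp (L s)) ∧ L 1 - L 0 = d

theorem inc_exists {a b : ℂ} (γ : Path a b) (y : ℂ) (h : ∀ s, γ s ≠ y) : ∃ d, Inc γ y d := by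
  obtain ⟨L, hL⟩ := exists_log (γ.toContinuousMap - ContinuousMap.const I y)
    (fun s => sub_ne_zero.2 (h s))
  exact ⟨L 1 - L 0, L, fun s => hL s, rfl⟩

theorem inc_trans {a b c : ℂ} (γ : Path a b) (δ : Path b c) (y d d' : ℂ) (h : Inc γ y d)
    (h' : Inc δ y d') : Inc (γ.trans δ) y (d + d') := by
  obtain ⟨L, hL, hk⟩ := h
  obtain ⟨L', hL', hl⟩ := h'
  let P : Path (L 0) (L 1) := ⟨L, rfl, rfl⟩
  let Q : Path (L 1) (L' 1 + (L 1 - L' 0)) :=
    ⟨⟨fun s => L' s + (L 1 - L' 0), by fun_prop⟩, by simp, by simp⟩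
  have e1 : Complex.exp (L 1) = b - y := by rw [← hL, γ.target]
  have e2 : Complex.exp (L' 0) = b - y := by rw [← hL', δ.source]
  have ha : b - y ≠ 0 := by rw [← e1]; exact Complex.exp_ne_zero _
  refine ⟨(P.trans Q).toContinuousMap, fun s => ?_, ?_⟩
  · change (γ.trans δ) s - y = Complex.exp ((P.trans Q) s)
    rw [Path.trans_apply, Path.trans_apply]
    split_ifs with hs
    · exact hL _
    · change δ _ - y = Complex.exp (L' _ + (L 1 - L' 0))
      rw [Complex.exp_add, Complex.exp_sub, e1, e2, div_self ha, mul_one]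
      exact hL' _
  · change (P.trans Q) 1 - (P.trans Q) 0 = _
    rw [Path.target, Path.source]
    linear_combination hk + hl

theorem inc_symm {a b : ℂ} (γ : Path a b) (y d : ℂ) (h : Inc γ y d) : Inc γ.symm y (-d) := by
  obtain ⟨L, hL, hk⟩ := h
  refine ⟨L.comp ⟨unitInterval.symm, by fun_prop⟩, fun s => ?_, ?_⟩
  · exact hL (unitInterval.symm s)
  · change L (unitInterval.symm 1) - L (unitInterval.symm 0) = -d
    rw [unitInterval.symm_one, unitInterval.symm_zero, ← hk]
    ring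

theorem inc_refl (a y : ℂ) (h : a ≠ y) : Inc (Path.refl a) y 0 := by
  refine ⟨ContinuousMap.const I (Complex.log (a - y)), fun s => ?_, by simp⟩
  change a - y = Complex.exp (Complex.log (a - y))
  rw [Complex.exp_log (sub_ne_zero.2 h)]

/-- Winding number of a loop around `y`. -/
def Wd {a : ℂ} (γ : Path a a) (y : ℂ) (k : ℤ) : Prop := Inc γ y (2 * Real.pi * Complex.I * k)

theorem wd_iff {a : ℂ} (γ : Path a a) (y : ℂ) (k : ℤ) :
    Wd γ y k ↔ Wind (γ.toContinuousMap - ContinuousMap.const I y) k := Iff.rfl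

theorem wd_exists {a : ℂ} (γ : Path a a) (y : ℂ) (h : ∀ s, γ s ≠ y) : ∃ k, Wd γ y k :=
  wind_exists (γ.toContinuousMap - ContinuousMap.const I y) (fun s => sub_ne_zero.2 (h s))
    (by simp)

theorem wd_unique {a : ℂ} (γ : Path a a) (y : ℂ) (k l : ℤ) (hk : Wd γ y k) (hl : Wd γ y l) :
    k = l := wind_unique (γ.toContinuousMap - ContinuousMap.const I y) k l hk hl

theorem wd_trans {a : ℂ} (γ δ : Path a a) (y : ℂ) (k l : ℤ) (hk : Wd γ y k) (hl : Wd δ y l) :
    Wd (γ.trans δ) y (k + l) := by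
  have := inc_trans γ δ y _ _ hk hl
  unfold Wd
  push_cast
  rw [mul_add]
  exact this

theorem wd_symm {a : ℂ} (γ : Path a a) (y : ℂ) (k : ℤ) (hk : Wd γ y k) : Wd γ.symm y (-k) := by
  have := inc_symm γ y _ hk
  unfold Wd
  push_cast
  rw [mul_neg]
  exact this

theorem wd_refl (a y : ℂ) (h : a ≠ y) : Wd (Path.refl a) y 0 := by
  have := inc_refl a y h
  unfold Wd
  simpa using this

theorem wd_conj {a b : ℂ} (η : Path a b) (δ : Path b b) (y : ℂ) (k : ℤ) (hη : ∀ s, η s ≠ y)
    (hk : Wd δ y k) : Wd ((η.trans δ).trans η.symm) y k := by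
  obtain ⟨d, hd⟩ := inc_exists η y hη
  have h1 := inc_trans _ _ y _ _ (inc_trans η δ y _ _ hd hk) (inc_symm η y _ hd)
  unfold Wd
  convert h1 using 1
  ring

theorem wd_pw {a : ℂ} (γ : Path a a) (y : ℂ) (k : ℤ) (h : a ≠ y) (hk : Wd γ y k) (j : ℕ) :
    Wd (pw γ j) y (j * k) := by
  induction j with
  | zero => simpa [pw] using wd_refl a y h
  | succ j ih =>
    have := wd_trans _ _ y _ _ ih hk
    rw [pw]
    convert this using 1
    push_cast
    ring

/-- Uniqueness of lifts by a polynomial. -/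
theorem lift_unique (A : ℂ[X]) (γ : C(I, ℂ)) (hγ : ∀ s c, A.derivative.eval c = 0 →
    A.eval c ≠ γ s) (β β' : C(I, ℂ)) (h : ∀ s, A.eval (β s) = γ s)
    (h' : ∀ s, A.eval (β' s) = γ s) (s₀ : I) (h0 : β s₀ = β' s₀) : β = β' := by
  have hcov := (Polynomial.isCoveringMapOn_eval A).isCoveringMap_restrictPreimage
  have hmem : ∀ s, γ s ∈ (A.eval '' {k | A.derivative.eval k = 0})ᶜ := by
    rintro s ⟨c, hc, hc2⟩
    exact hγ s c hc hc2
  have h1 := hcov.eq_of_comp_eq
    (g₁ := fun s : I => ⟨β s, by rw [Set.mem_preimage, h]; exact hmem s⟩)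
    (g₂ := fun s : I => ⟨β' s, by rw [Set.mem_preimage, h']; exact hmem s⟩)
    (by fun_prop) (by fun_prop)
    (by
      funext s
      apply Subtype.ext
      exact (h s).trans (h' s).symm) s₀ (Subtype.ext h0)
  ext s
  exact congrArg Subtype.val (congrFun h1 s)

theorem push (p : ℂ[X]) (S : Finset ℂ) (hS : S.card = p.natDegree) (hp : 1 ≤ p.natDegree)
    (Γ : ℂ → ℂ) (c : ℂ) (hinj : Set.InjOn Γ S) (hroot : ∀ x ∈ S, p.eval (Γ x) = c) (u : ℂ) :
    p.eval u - c = p.leadingCoeff * ∏ x ∈ S, (u - Γ x) := by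
  classical
  set r := p - C c with hr
  have hrd : r.natDegree = p.natDegree := natDegree_sub_C
  have hr0 : r ≠ 0 := by
    intro h
    rw [h, natDegree_zero] at hrd
    omega
  have hlc : r.leadingCoeff = p.leadingCoeff := by
    rw [hr]
    apply leadingCoeff_sub_of_degree_lt
    refine lt_of_le_of_lt degree_C_le ?_
    rw [← natDegree_pos_iff_degree_pos]
    omega
  have himg : (S.image Γ).card = p.natDegree := by
    rw [Finset.card_image_of_injOn hinj, hS]
  have h1 : (S.image Γ).val ≤ r.roots := by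
    rw [Finset.val_le_iff_val_subset]
    intro z hz
    obtain ⟨x, hx, rfl⟩ := Finset.mem_image.1 hz
    rw [mem_roots hr0]
    simp [hr, IsRoot, hroot x hx]
  have h2 : (S.image Γ).val = r.roots := by
    refine Multiset.eq_of_le_of_card_le h1 ?_
    have h3 := r.card_roots'
    rw [hrd] at h3
    rw [← himg] at h3
    exact h3
  have h3 : r.roots.card = r.natDegree := by
    rw [← h2, hrd, ← himg]
    rfl
  have h4 := C_leadingCoeff_mul_prod_multiset_X_sub_C h3
  have h5 := congrArg (eval u) h4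
  rw [← h2, hlc, eval_mul, eval_C, eval_multiset_prod, Multiset.map_map] at h5
  have h6 : r.eval u = p.eval u - c := by simp [hr]
  rw [← h6, ← h5]
  congr 1
  have h7 : (Multiset.map ((fun q => eval u q) ∘ fun a => X - C a) (S.image Γ).val).prod =
      ∏ z ∈ S.image Γ, (u - z) := by
    rw [Finset.prod]
    congr 1
    refine Multiset.map_congr rfl fun x _ => ?_
    simp
  rw [← Finset.prod_image (f := fun z => u - z) (g := Γ) hinj]
  exact h7

theorem wind_prod (S : Finset ℂ) (u : ℂ → C(I, ℂ)) (w : ℂ → ℤ) (h : ∀ x ∈ S, Wind (u x) (w x)) :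
    Wind (∏ x ∈ S, u x) (∑ x ∈ S, w x) := by
  classical
  induction S using Finset.induction_on with
  | empty => simpa using wind_const 1 one_ne_zero
  | insert x S hx ih =>
    rw [Finset.prod_insert hx, Finset.sum_insert hx]
    exact wind_mul _ _ _ _ (h x (Finset.mem_insert_self _ _))
      (ih fun z hz => h z (Finset.mem_insert_of_mem hz))

theorem wind_pow (u : C(I, ℂ)) (w : ℤ) (h : Wind u w) (k : ℕ) : Wind (u ^ k) (k * w) := by
  induction k with
  | zero => simpa using wind_const 1 one_ne_zero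
  | succ k ih =>
    rw [pow_succ]
    convert wind_mul _ _ _ _ ih h using 1
    push_cast
    ring

theorem wind_push (p : ℂ[X]) (S : Finset ℂ) (hS : S.card = p.natDegree) (hp : 1 ≤ p.natDegree)
    (η : C(I, ℂ)) (Γ : ℂ → C(I, ℂ)) (hinj : ∀ s, Set.InjOn (fun x => Γ x s) S)
    (hroot : ∀ x ∈ S, ∀ s, p.eval (Γ x s) = η s) (u : ℂ) (w : ℂ → ℤ)
    (hw : ∀ x ∈ S, Wind (Γ x - ContinuousMap.const I u) (w x)) :
    Wind (η - ContinuousMap.const I (p.eval u)) (∑ x ∈ S, w x) := by
  have h1 := wind_prod S _ w hw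
  have hc : -(p.leadingCoeff * (-1) ^ S.card) ≠ 0 := by
    apply neg_ne_zero.2
    refine mul_ne_zero ?_ (pow_ne_zero _ (by norm_num))
    rw [Ne, leadingCoeff_eq_zero]
    rintro rfl
    simp at hp
  have h2 := wind_mul _ _ _ _ (wind_const _ hc) h1
  rw [zero_add] at h2
  convert h2 using 1
  ext s
  have h3 := push p S hS hp (fun x => Γ x s) (η s) (hinj s) (fun x hx => hroot x hx s) u
  simp only [ContinuousMap.sub_apply, ContinuousMap.mul_apply, ContinuousMap.const_apply,
    ContinuousMap.coe_prod, Finset.prod_apply]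
  have h4 : ∏ x ∈ S, (Γ x s - u) = (-1) ^ S.card * ∏ x ∈ S, (u - Γ x s) := by
    rw [← Finset.prod_const, ← Finset.prod_mul_distrib]
    exact Finset.prod_congr rfl fun x _ => by ring
  rw [h4]
  have h5 : ((-1 : ℂ) ^ S.card) * (-1) ^ S.card = 1 := by
    rw [← mul_pow]; norm_num
  linear_combination -h3 + (p.leadingCoeff * ∏ x ∈ S, (u - Γ x s)) * h5

end NEC

end PCF
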