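import Pool.Agent.Work.MP_80ff4e_al_helper10.NECa

/-!
# NEC, part b: loops acting trivially have winding number zero
-/

set_option autoImplicit false

open Polynomial unitInterval

namespace PCF

namespace NEC

/-- The standing assumptions. -/
structure Setup (f : ℂ[X]) (P : Set ℂ) (m k : ℕ) (a h : ℂ[X]) (y : ℂ) : Prop where
  adm : Adm f P
  hm : 1 ≤ m
  hk : 2 ≤ k
  hF : ∀ z, it f m z = a.eval (h.eval z ^ k)
  hy : h.eval y = 0
  fy : it f m y = y

theorem crit_it {f : ℂ[X]} {P : Set ℂ} (hA : Adm f P) (hL : Stmt_L) (n : ℕ) (c : ℂ)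
    (hc : (itp f n).derivative.eval c = 0) : it f n c ∈ P := by
  induction n with
  | zero => simp [itp] at hc
  | succ n ih =>
    have h1 : itp f (n + 1) = f.comp (itp f n) := Function.iterate_succ_apply' _ _ _
    rw [h1, derivative_comp, eval_mul, eval_comp, hL.1] at hc
    rw [FT.it_succ']
    rcases mul_eq_zero.1 hc with h | h
    · exact hA.fwd _ (ih h)
    · exact hA.crit _ h

section

variable {f : ℂ[X]} {P : Set ℂ} {m k : ℕ} {a h : ℂ[X]} {y : ℂ} (hs : Setup f P m k a h y)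
  (hL : Stmt_L)

include hs hL

theorem Setup.poly : itp f m = a.comp (h ^ k) := by
  apply Polynomial.funext
  intro z
  rw [hL.1, hs.hF]
  simp

theorem Setup.degs : 1 ≤ a.natDegree ∧ 1 ≤ h.natDegree := by
  have h1 : 1 ≤ (itp f m).natDegree := by
    rw [hL.2.1]; exact Nat.one_le_pow _ _ (by have := hs.adm.deg; omega)
  rw [hs.poly hL, natDegree_comp, natDegree_pow] at h1
  constructor
  · rcases Nat.eq_zero_or_pos a.natDegree with h0 | h0
    · rw [h0] at h1; simp at h1
    · exact h0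
  · rcases Nat.eq_zero_or_pos h.natDegree with h0 | h0
    · rw [h0] at h1; simp at h1
    · exact h0

theorem Setup.surj (p : ℂ[X]) (hp : 1 ≤ p.natDegree) (w : ℂ) : ∃ z, p.eval z = w := by
  have h1 : (p - C w).degree ≠ 0 := by
    intro h
    have h2 : (p - C w).natDegree = 0 := natDegree_eq_of_degree_eq_some h
    rw [natDegree_sub_C] at h2
    omega
  obtain ⟨z, hz⟩ := IsAlgClosed.exists_root _ h1
  refine ⟨z, ?_⟩
  have : eval z (p - C w) = 0 := hz
  simpa [sub_eq_zero] using this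

theorem Setup.der (c : ℂ) : (itp f m).derivative.eval c =
    (k * (h.eval c) ^ (k - 1) * h.derivative.eval c) * a.derivative.eval (h.eval c ^ k) := by
  rw [hs.poly hL, derivative_comp, derivative_pow]
  simp

theorem Setup.critA (c : ℂ) (hc : a.derivative.eval c = 0) : a.eval c ∈ P := by
  obtain ⟨ha, hh⟩ := hs.degs hL
  obtain ⟨r, hr⟩ := IsAlgClosed.exists_pow_nat_eq c (by have := hs.hk; omega : 0 < k)
  obtain ⟨x, hx⟩ := hs.surj hL h hh r
  have h1 := crit_it hs.adm hL m x (by rw [hs.der hL, hx, hr, hc, mul_zero])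
  rw [hs.hF, hx, hr] at h1
  exact h1

theorem Setup.critAk (c : ℂ) (hc : (a.comp (X ^ k)).derivative.eval c = 0) :
    a.eval (c ^ k) ∈ P := by
  obtain ⟨ha, hh⟩ := hs.degs hL
  obtain ⟨x, hx⟩ := hs.surj hL h hh c
  have h1 := crit_it hs.adm hL m x (by
    have h2 := hs.poly hL
    have h3 : a.comp (h ^ k) = (a.comp (X ^ k)).comp h := by
      rw [comp_assoc]; simp
    rw [h2, h3, derivative_comp, eval_mul, eval_comp, hx, hc, mul_zero])
  rw [hs.hF, hx] at h1
  exact h1

theorem Setup.y_mem : y ∈ P := by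
  have h1 := crit_it hs.adm hL m y (by
    rw [hs.der hL, hs.hy, zero_pow (by have := hs.hk; omega)]; ring)
  rwa [hs.fy] at h1

theorem Setup.card_h (v : ℂ) (hv : a.eval (v ^ k) ∉ P) :
    (fibre h v).card = h.natDegree := by
  obtain ⟨ha, hh⟩ := hs.degs hL
  have h1 := hL.2.2.2.2.1 h hh v
  rw [← h1]
  rw [Finset.card_eq_sum_ones]
  refine Finset.sum_congr rfl fun u hu => ?_
  have hu' := (hL.2.2.2.1 h hh v u).1 hu
  have h2 := hL.2.2.2.2.2.1 h hh u
  have h3 := hL.2.2.2.2.2.2.1 h hh u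
  by_contra h4
  have h5 : 2 ≤ ldeg h u := by omega
  rw [h3] at h5
  apply hv
  have h6 := crit_it hs.adm hL m u (by rw [hs.der hL, h5]; ring)
  rwa [hs.hF, hu'] at h6

theorem Setup.card_a (b : ℂ) (hb : b ∉ P) : (fibre a b).card = a.natDegree := by
  obtain ⟨ha, hh⟩ := hs.degs hL
  have h1 := hL.2.2.2.2.1 a ha b
  rw [← h1]
  rw [Finset.card_eq_sum_ones]
  refine Finset.sum_congr rfl fun u hu => ?_
  have hu' := (hL.2.2.2.1 a ha b u).1 hu
  have h2 := hL.2.2.2.2.2.1 a ha u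
  have h3 := hL.2.2.2.2.2.2.1 a ha u
  by_contra h4
  have h5 : 2 ≤ ldeg a u := by omega
  rw [h3] at h5
  apply hb
  have h6 := hs.critA hL u h5
  rwa [hu'] at h6

/-- The winding number around `0` of a lift of `γ` by `a(Z^k)`. -/
theorem Setup.wind_beta {b : ℂ} (γ : Path b b) (hγ : Av P γ) (v : ℂ) (β : C(I, ℂ))
    (hβ : ∀ s, a.eval (β s ^ k) = γ s) (hβ0 : β 0 = v) (Γ : (x : ℂ) → Path x x)
    (hΓ : ∀ x, h.eval x = v → ∀ s, it f m (Γ x s) = γ s) (w : ℂ → ℤ)
    (hw : ∀ x, h.eval x = v → Wd (Γ x) y (w x)) : Wind β (∑ x ∈ fibre h v, w x) := by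
  obtain ⟨ha, hh⟩ := hs.degs hL
  have hv : a.eval (v ^ k) = b := by rw [← hβ0, hβ, γ.source]
  have hb : b ∉ P := by have := hγ 0; rwa [γ.source] at this
  have hmem : ∀ x ∈ fibre h v, h.eval x = v := fun x hx => (hL.2.2.2.1 h hh v x).1 hx
  have hlift : ∀ x, h.eval x = v → ∀ s, h.eval (Γ x s) = β s := by
    intro x hx
    have h1 := lift_unique (a.comp (X ^ k)) γ.toContinuousMap (by
      intro s c hc hc2
      have := hs.critAk hL c hc
      rw [eval_comp, eval_pow, eval_X] at hc2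
      rw [hc2] at this
      exact hγ s this) ⟨fun s => h.eval (Γ x s), by fun_prop⟩ β (by
        intro s
        have := hΓ x hx s
        rw [hs.hF] at this
        simpa using this) (by
        intro s
        have := hβ s
        simpa using this) 0 (by
        change h.eval (Γ x 0) = β 0
        rw [(Γ x).source, hx, hβ0])
    intro s
    exact congrArg (fun q : C(I, ℂ) => q s) h1
  have h2 := wind_push h (fibre h v) (hs.card_h hL v (by rw [hv]; exact hb)) hh β
    (fun x => (Γ x).toContinuousMap) (by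
      intro s x hx x' hx' hxx
      have h3 := lift_unique (itp f m) γ.toContinuousMap (by
        intro s c hc hc2
        have := crit_it hs.adm hL m c hc
        rw [hL.1] at hc2
        rw [hc2] at this
        exact hγ s this) (Γ x).toContinuousMap (Γ x').toContinuousMap
        (by intro s; rw [hL.1]; exact hΓ x (hmem x hx) s)
        (by intro s; rw [hL.1]; exact hΓ x' (hmem x' hx') s) s hxx
      have h4 := congrArg (fun q : C(I, ℂ) => q 0) h3
      simpa using h4) (by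
      intro x hx s
      exact hlift x (hmem x hx) s) y w (fun x hx => hw x (hmem x hx))
  rw [hs.hy] at h2
  convert h2 using 1
  ext s
  simp

/-- Symmetry of the block sums. -/
theorem Setup.block_eq {b : ℂ} (γ : Path b b) (hγ : Av P γ) (v v' : ℂ)
    (hvv : v' ^ k = v ^ k) (Γ : (x : ℂ) → Path x x)
    (hΓ : ∀ x, h.eval x = v ∨ h.eval x = v' → ∀ s, it f m (Γ x s) = γ s) (w : ℂ → ℤ)
    (hw : ∀ x, h.eval x = v ∨ h.eval x = v' → Wd (Γ x) y (w x)) :
    ∑ x ∈ fibre h v, w x = ∑ x ∈ fibre h v', w x := by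
  obtain ⟨ha, hh⟩ := hs.degs hL
  by_cases hv0 : v = 0
  · have : v' = 0 := by
      rw [hv0, zero_pow (by have := hs.hk; omega)] at hvv
      exact (pow_eq_zero_iff (by have := hs.hk; omega)).1 hvv
    rw [hv0, this]
  obtain ⟨x₀, hx0⟩ := hs.surj hL h hh v
  set β : C(I, ℂ) := ⟨fun s => h.eval (Γ x₀ s), by fun_prop⟩ with hβ
  have hβ1 : ∀ s, a.eval (β s ^ k) = γ s := by
    intro s
    have := hΓ x₀ (Or.inl hx0) s
    rw [hs.hF] at this
    exact this
  have hβ0 : β 0 = v := by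
    change h.eval (Γ x₀ 0) = v
    rw [(Γ x₀).source, hx0]
  have h1 := hs.wind_beta hL γ hγ v β hβ1 hβ0 Γ (fun x hx => hΓ x (Or.inl hx)) w
    (fun x hx => hw x (Or.inl hx))
  set ω := v' / v with hω
  have hωk : ω ^ k = 1 := by
    rw [hω, div_pow, hvv, div_self (pow_ne_zero _ hv0)]
  have hω0 : ω ≠ 0 := by
    rintro h0
    rw [h0, zero_pow (by have := hs.hk; omega)] at hωk
    exact zero_ne_one hωk
  set β' : C(I, ℂ) := ContinuousMap.const I ω * β with hβ'
  have h2 := hs.wind_beta hL γ hγ v' β' (by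
    intro s
    change a.eval ((ω * β s) ^ k) = γ s
    rw [mul_pow, hωk, one_mul, hβ1]) (by
    change ω * β 0 = v'
    rw [hβ0, hω, div_mul_cancel₀ _ hv0]) Γ (fun x hx => hΓ x (Or.inr hx)) w
    (fun x hx => hw x (Or.inr hx))
  have h3 := wind_mul _ _ _ _ (wind_const ω hω0) h1
  rw [zero_add] at h3
  exact wind_unique _ _ _ h3 h2

/-- The loop `γ` acts trivially on all levels. -/
def Triv (f : ℂ[X]) {b : ℂ} (γ : Path b b) : Prop := ∀ n z z', Tr f n γ z z' → z = z'

theorem Setup.triv_dvd (hTR : Stmt_TR) (j : ℕ) : ∀ {b : ℂ} (γ : Path b b), Av P γ → Triv f γ →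
    ∀ w, Wd γ y w → (k : ℤ) ^ j ∣ w := by
  obtain ⟨tr_ex, tr_uniq, tr_end, -, -, -, -, -, tr_iter, -⟩ := hTR f P hs.adm
  obtain ⟨ha, hh⟩ := hs.degs hL
  have hyP := hs.y_mem hL
  induction j with
  | zero => intro b γ hγ htr w hw; simp
  | succ j ih =>
    intro b γ hγ htr w hw
    have hb : b ∉ P := by have := hγ 0; rwa [γ.source] at this
    -- the lifts
    have h1 : ∀ x, ∃ Γ : Path x x, it f m x = b → ∀ s, it f m (Γ s) = γ s := by
      intro x
      by_cases hx : it f m x = b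
      · obtain ⟨x', hx'⟩ := tr_ex m b b γ hγ x hx
        have h2 := htr _ _ _ hx'
        subst h2
        obtain ⟨Γ, hΓ⟩ := hx'
        exact ⟨Γ, fun _ => hΓ⟩
      · exact ⟨Path.refl x, fun h => absurd h hx⟩
    choose Γ hΓ using h1
    have h2 : ∀ x, ∃ w, it f m x = b → Wd (Γ x) y w ∧ (k : ℤ) ^ j ∣ w := by
      intro x
      by_cases hx : it f m x = b
      · obtain ⟨hav, hit⟩ := tr_iter 0 m b b γ x x (Γ x) hγ (hΓ x hx)
        obtain ⟨w, hw⟩ := wd_exists (Γ x) y (fun s hs' => hav s (by rw [hs']; exact hyP))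
        refine ⟨w, fun _ => ⟨hw, ih (Γ x) hav ?_ w hw⟩⟩
        intro n z z' hz
        have h3 := (tr_end n x x (Γ x) z z' hz).1
        have h4 := ((tr_iter n m b b γ x x (Γ x) hγ (hΓ x hx)).2 z z' h3).1 hz
        exact htr _ _ _ h4
      · exact ⟨0, fun h => absurd h hx⟩
    choose wx hwx using h2
    -- sections
    have h3 : ∀ ρ : ℂ, ∃ x : ℂ, h.eval x ^ k = ρ := by
      intro ρ
      obtain ⟨r, hr⟩ := IsAlgClosed.exists_pow_nat_eq ρ (by have := hs.hk; omega : 0 < k)
      obtain ⟨x, hx⟩ := hs.surj hL h hh r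
      exact ⟨x, by rw [hx, hr]⟩
    choose ξ hξ using h3
    have hmem : ∀ ρ ∈ fibre a b, a.eval ρ = b := fun ρ hρ => (hL.2.2.2.1 a ha b ρ).1 hρ
    have hξF : ∀ ρ ∈ fibre a b, it f m (ξ ρ) = b := by
      intro ρ hρ
      rw [hs.hF, hξ, hmem ρ hρ]
    let β : ℂ → C(I, ℂ) := fun ρ => ⟨fun s => h.eval (Γ (ξ ρ) s), by fun_prop⟩
    have hβ1 : ∀ ρ ∈ fibre a b, ∀ s, a.eval (β ρ s ^ k) = γ s := by
      intro ρ hρ s
      have := hΓ (ξ ρ) (hξF ρ hρ) s
      rw [hs.hF] at this
      exact this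
    have hN : ∀ ρ ∈ fibre a b, Wind (β ρ) (∑ x ∈ fibre h (h.eval (ξ ρ)), wx x) := by
      intro ρ hρ
      have h5 : ∀ x, h.eval x = h.eval (ξ ρ) → it f m x = b := by
        intro x hx
        rw [hs.hF, hx, hξ, hmem ρ hρ]
      refine hs.wind_beta hL γ hγ _ (β ρ) (hβ1 ρ hρ) ?_ Γ (fun x hx => hΓ x (h5 x hx)) wx
        (fun x hx => (hwx x (h5 x hx)).1)
      change h.eval (Γ (ξ ρ) 0) = _
      rw [(Γ (ξ ρ)).source]
    have h6 := wind_push a (fibre a b) (hs.card_a hL b hb) ha γ.toContinuousMap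
      (fun ρ => β ρ ^ k) (by
        intro s ρ hρ ρ' hρ' hρρ
        have h7 := lift_unique a γ.toContinuousMap (by
          intro s c hc hc2
          have := hs.critA hL c hc
          rw [hc2] at this
          exact hγ s this) (β ρ ^ k) (β ρ' ^ k)
          (fun s => hβ1 ρ hρ s) (fun s => hβ1 ρ' hρ' s) s hρρ
        have h8 := congrArg (fun q : C(I, ℂ) => q 0) h7
        have h9 : ∀ ρ, (β ρ ^ k) 0 = ρ := by
          intro ρ
          change h.eval (Γ (ξ ρ) 0) ^ k = ρ
          rw [(Γ (ξ ρ)).source, hξ]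
        rw [← h9 ρ, ← h9 ρ']
        exact h8) (by
        intro ρ hρ s
        exact hβ1 ρ hρ s) 0 (fun ρ => k * ∑ x ∈ fibre h (h.eval (ξ ρ)), wx x) (by
        intro ρ hρ
        have h7 := wind_pow _ _ (hN ρ hρ) k
        convert h7 using 1
        ext s
        simp)
    have h7 : a.eval 0 = y := by
      have := hs.hF y
      rw [hs.hy, zero_pow (by have := hs.hk; omega), hs.fy] at this
      exact this.symm
    rw [h7] at h6
    have h8 := wd_unique γ y w _ hw h6
    rw [h8]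
    refine Finset.dvd_sum fun ρ hρ => ?_
    rw [pow_succ, mul_comm]
    refine mul_dvd_mul_left _ (Finset.dvd_sum fun x hx => ?_)
    have hx' := (hL.2.2.2.1 h hh _ x).1 hx
    exact (hwx x (by rw [hs.hF, hx', hξ, hmem ρ hρ])).2

theorem Setup.triv_zero (hTR : Stmt_TR) {b : ℂ} (γ : Path b b) (hγ : Av P γ) (ht : Triv f γ)
    (w : ℤ) (hw : Wd γ y w) : w = 0 := by
  have hk := hs.hk
  by_contra hne
  have h1 := hs.triv_dvd hL hTR w.natAbs γ hγ ht w hw
  have h2 := Int.le_of_dvd (Int.natAbs_pos.2 hne |> Int.natCast_pos.2) (Int.dvd_natAbs.2 h1)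
  have h3 : w.natAbs < k ^ w.natAbs := Nat.lt_pow_self (by omega)
  have h4 : k ^ w.natAbs ≤ w.natAbs := by exact_mod_cast h2
  omega

end

end NEC

end PCF
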